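import Pool.Agent.H207.WT.Spread

/-!
# The number of curves of the extreme states
-/

set_option autoImplicit false

namespace Pool.Agent.H207.WT

open Pool.Agent.TH561 Pool.Agent.H891R2.Jones

variable {m : ℕ}

lemma sq_word : ∀ Q : List ℕ, Ok m Q → List.Pairwise (fun i j => i + 2 ≤ j) Q →
    WP (KK m 2) (Q ++ Q) = (2 : ℂ) ^ Q.length • WP (KK m 2) Q := by
  intro Q
  induction Q with
  | nil => intro _ _; simp
  | cons i Q ih =>
    intro hok hp
    rw [List.pairwise_cons] at hp
    have hok' : Ok m Q := fun k hk => hok k (List.mem_cons_of_mem _ hk)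
    have hi := hok i List.mem_cons_self
    have h1 := ih hok' hp.2
    have hc := w_comm hi Q hok' (fun j hj => Or.inl (hp.1 j hj))
    have e1 : i :: Q ++ i :: Q = [i] ++ (Q ++ [i]) ++ Q := by simp
    have e2 : KK m 2 i * WP (KK m 2) (i :: Q) = (2 : ℂ) • WP (KK m 2) (i :: Q) := by
      rw [WP_cons, ← mul_assoc, (tl m).sq i hi, smul_mul_assoc]
    have e3 : WP (KK m 2) (i :: Q) * WP (KK m 2) Q = (2 : ℂ) ^ Q.length • WP (KK m 2) (i :: Q) := by
      rw [WP_cons, mul_assoc, ← WP_append, h1, mul_smul_comm]
    rw [e1, WP_append, WP_append, ← hc, w_single, e2, smul_mul_assoc, e3, smul_smul,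
      List.length_cons, pow_succ, mul_comm]

/-- the word of one row -/
def row (n p : ℕ) : List ℕ := (List.range n).filter (fun b => decide (b % 2 = p))

lemma row_length (n p : ℕ) (hp : p < 2) : (row n p).length = (n + 1 - p) / 2 := by
  unfold row
  induction n with
  | zero => simp; omega
  | succ n ih =>
    rw [List.range_succ, List.filter_append, List.length_append, ih]
    by_cases h : n % 2 = p
    · simp [h]; omega
    · simp [h]; omega

lemma row_eq (n p L : ℕ) : wd n (st n p L ∅) 0 n = row n p := by
  unfold wd row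
  have h1 : (List.range' 0 n).filter (st n p L ∅) = (List.range n).filter (fun b => decide (b % 2 = p)) := by
    rw [List.range_eq_range']
    apply List.filter_congr
    intro b hb
    rw [List.mem_range'_1] at hb
    rw [st_not (by simp), Nat.mod_eq_of_lt (show b < n by omega)]
  rw [h1]
  have h2 : ∀ b ∈ (List.range n).filter (fun b => decide (b % 2 = p)), b % n = id b := by
    intro b hb
    rw [List.mem_filter, List.mem_range] at hb
    exact Nat.mod_eq_of_lt hb.1
  rw [List.map_congr_left h2, List.map_id]

lemma row_ok (n p : ℕ) : Ok (n + 1) (row n p) := by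
  intro i hi
  unfold row at hi
  rw [List.mem_filter, List.mem_range] at hi
  omega

lemma row_pairwise (n p : ℕ) : List.Pairwise (fun i j => i + 2 ≤ j) (row n p) := by
  unfold row
  have h1 : List.Pairwise (· < ·) ((List.range n).filter (fun b => decide (b % 2 = p))) :=
    List.Pairwise.filter _ List.pairwise_lt_range
  refine List.Pairwise.imp_of_mem ?_ h1
  intro a b ha hb hab
  rw [List.mem_filter] at ha hb
  have h2 := of_decide_eq_true ha.2
  have h3 := of_decide_eq_true hb.2
  omega

lemma st_empty_per (n p L K : ℕ) (b : ℕ) : st n p L ∅ (b + n * K) = st n p L ∅ b := by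
  rw [st_not (by simp), st_not (by simp), Nat.add_mul_mod_self_left]

lemma w_base (n p L : ℕ) : ∀ M : ℕ,
    WP (KK (n + 1) 2) (wd n (st n p L ∅) 0 (n * (M + 1))) =
      (2 : ℂ) ^ (M * (row n p).length) • WP (KK (n + 1) 2) (row n p) := by
  intro M
  induction M with
  | zero => rw [Nat.zero_add, mul_one, row_eq]; simp
  | succ M ih =>
    have e1 : wd n (st n p L ∅) (0 + n * (M + 1)) n = row n p := by
      rw [wd_shift (Dvd.intro _ rfl) (st_empty_per n p L (M + 1)), row_eq]
    rw [mul_add n (M + 1) 1, mul_one, wd_add, e1, WP_append, ih, smul_mul_assoc, ← WP_append,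
      sq_word _ (row_ok n p) (row_pairwise n p), smul_smul, ← pow_add]
    congr 2
    ring

/-- the number of curves of the extreme state -/
theorem Lam_empty (n p : ℕ) (hn : 0 < n) (hp : p < 2) (M : ℕ) :
    Lam n p (n * (M + 1)) ∅ = M * ((n + 1 - p) / 2) + lam (n + 1) (row n p) := by
  unfold Lam
  apply pow_inj
  rw [← tr_lam (wd_ok hn _ _ _), pow_add, ← tr_lam (row_ok n p)]
  unfold tr
  rw [w_base, Matrix.trace_smul, smul_eq_mul, row_length n p hp]

end Pool.Agent.H207.WT
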