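import Pool.Agent.H207.WT.Main
import Pool.Agent.H207.WT.Base

/-!
# Asymptotics of the twist numbers
-/

set_option autoImplicit false

namespace Pool.Agent.H207.WT

open Finset Filter Topology Pool.Agent.TH561 Pool.Agent.H891R2.Jones Pool.Agent.W639.RB

lemma sub_tendsto {a : ℕ → ℕ} {α : ℝ}
    (h : Tendsto (fun M : ℕ => (a M : ℝ) / M) atTop (𝓝 α)) (i : ℕ) :
    Tendsto (fun M : ℕ => ((a M - i : ℕ) : ℝ) / M) atTop (𝓝 α) := by
  have h1 : Tendsto (fun M : ℕ => (i : ℝ) / M) atTop (𝓝 0) :=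
    tendsto_const_div_atTop_nhds_zero_nat (i : ℝ)
  have h2 : Tendsto (fun M : ℕ => (a M : ℝ) / M - (i : ℝ) / M) atTop (𝓝 α) := by
    have := h.sub h1
    rwa [sub_zero] at this
  apply tendsto_of_tendsto_of_tendsto_of_le_of_le h2 h
  · intro M
    simp only
    rw [← sub_div]
    apply div_le_div_of_nonneg_right _ (Nat.cast_nonneg M)
    have : (a M : ℝ) ≤ ((a M - i : ℕ) : ℝ) + i := by
      exact_mod_cast (by omega : a M ≤ (a M - i) + i)
    linarith
  · intro M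
    simp only
    apply div_le_div_of_nonneg_right _ (Nat.cast_nonneg M)
    exact_mod_cast Nat.sub_le _ _

lemma choose_tendsto {a : ℕ → ℕ} {α : ℝ}
    (h : Tendsto (fun M : ℕ => (a M : ℝ) / M) atTop (𝓝 α)) (k : ℕ) :
    Tendsto (fun M : ℕ => ((a M).choose k : ℝ) / (M : ℝ) ^ k) atTop (𝓝 (α ^ k / k.factorial)) := by
  have h1 : Tendsto (fun M : ℕ => (∏ i ∈ range k, (((a M - i : ℕ) : ℝ) / M)) / k.factorial) atTop
      (𝓝 ((∏ i ∈ range k, α) / k.factorial)) :=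
    (tendsto_finsetProd _ (fun i _ => sub_tendsto h i)).div_const _
  rw [prod_const, card_range] at h1
  refine h1.congr (fun M => ?_)
  rw [prod_div_distrib, prod_const, card_range]
  have h2 : (∏ i ∈ range k, ((a M - i : ℕ) : ℝ)) = k.factorial * ((a M).choose k : ℝ) := by
    rw [← Nat.cast_prod, ← Nat.descFactorial_eq_prod_range, Nat.descFactorial_eq_factorial_mul_choose]
    push_cast
    ring
  rw [h2]
  have h3 : (k.factorial : ℝ) ≠ 0 := by exact_mod_cast Nat.factorial_ne_zero k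
  field_simp

/-- number of circles in the base state -/
noncomputable def VV (n p M : ℕ) : ℕ := Lam n p (n * M) ∅

lemma VV_tendsto {n p : ℕ} (hn : 0 < n) (hp : p < 2) :
    Tendsto (fun M : ℕ => (VV n p M : ℝ) / M) atTop (𝓝 (((n + 1 - p) / 2 : ℕ) : ℝ)) := by
  set v := (n + 1 - p) / 2 with hv
  set c := lam (n + 1) (row n p) with hc
  have h1 : Tendsto (fun M : ℕ => (v : ℝ) + ((c : ℝ) - v) / M) atTop (𝓝 ((v : ℝ) + 0)) :=
    tendsto_const_nhds.add (tendsto_const_div_atTop_nhds_zero_nat _)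
  rw [add_zero] at h1
  refine h1.congr' ?_
  filter_upwards [eventually_ge_atTop 1] with M hM
  obtain ⟨m, rfl⟩ : ∃ m, M = m + 1 := ⟨M - 1, by omega⟩
  have h2 : VV n p (m + 1) = m * v + c := Lam_empty n p hn hp m
  rw [h2]
  have h3 : ((m + 1 : ℕ) : ℝ) ≠ 0 := by positivity
  field_simp
  push_cast
  ring

lemma VV_atTop {n p : ℕ} (hn : 2 ≤ n) (hp : p < 2) : Tendsto (fun M : ℕ => VV n p M) atTop atTop := by
  rw [tendsto_atTop]
  intro b
  filter_upwards [eventually_ge_atTop (b + 1)] with M hM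
  obtain ⟨m, rfl⟩ : ∃ m, M = m + 1 := ⟨M - 1, by omega⟩
  have h2 : VV n p (m + 1) = m * ((n + 1 - p) / 2) + lam (n + 1) (row n p) :=
    Lam_empty n p (by omega) hp m
  rw [h2]
  have h3 : 1 ≤ (n + 1 - p) / 2 := by omega
  nlinarith

lemma binom_sum (a v : ℝ) (K : ℕ) :
    ∑ j ∈ range (K + 1), (-1 : ℝ) ^ j * (a ^ j / j.factorial) * (v ^ (K - j) / (K - j).factorial) =
      (v - a) ^ K / K.factorial := by
  have h1 : v - a = -a + v := by ring
  rw [h1, add_pow, sum_div]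
  apply sum_congr rfl
  intro j hj
  rw [mem_range] at hj
  have h2 : ((K.choose j : ℕ) : ℝ) = K.factorial / (j.factorial * (K - j).factorial) :=
    Nat.cast_choose ℝ (by omega)
  rw [h2, neg_pow a j]
  have h3 : (K.factorial : ℝ) ≠ 0 := by exact_mod_cast Nat.factorial_ne_zero _
  have h4 : (j.factorial : ℝ) ≠ 0 := by exact_mod_cast Nat.factorial_ne_zero _
  have h5 : ((K - j).factorial : ℝ) ≠ 0 := by exact_mod_cast Nat.factorial_ne_zero _
  field_simp

theorem main_tendsto {n p : ℕ} (hn : 2 ≤ n) (hp : p < 2) (K : ℕ) :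
    Tendsto (fun M : ℕ => (((∑ j ∈ range (K + 1), (-1) ^ j *
      (((n * M).choose j : ℕ) : ℤ) * (((VV n p M - 1 - j).choose (K - j) : ℕ) : ℤ) : ℤ)) : ℝ) /
        (M : ℝ) ^ K) atTop
      (𝓝 (((((n + 1 - p) / 2 : ℕ) : ℝ) - n) ^ K / K.factorial)) := by
  rw [← binom_sum]
  have h1 : Tendsto (fun M : ℕ => ((n * M : ℕ) : ℝ) / M) atTop (𝓝 (n : ℝ)) := by
    refine tendsto_const_nhds.congr' ?_
    filter_upwards [eventually_ge_atTop 1] with M hM
    have h3 : (M : ℝ) ≠ 0 := by positivity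
    push_cast
    field_simp
  have h2 := VV_tendsto (n := n) (p := p) (by omega) hp
  have h3 : Tendsto (fun M : ℕ => ∑ j ∈ range (K + 1), (-1 : ℝ) ^ j *
      ((((n * M).choose j : ℕ) : ℝ) / (M : ℝ) ^ j) *
      ((((VV n p M - 1 - j).choose (K - j) : ℕ) : ℝ) / (M : ℝ) ^ (K - j))) atTop
      (𝓝 (∑ j ∈ range (K + 1), (-1 : ℝ) ^ j * ((n : ℝ) ^ j / j.factorial) *
        ((((n + 1 - p) / 2 : ℕ) : ℝ) ^ (K - j) / (K - j).factorial))) := by
    apply tendsto_finsetSum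
    intro j _
    apply Tendsto.mul
    · exact (choose_tendsto h1 j).const_mul _
    · exact choose_tendsto (sub_tendsto (sub_tendsto h2 1) j) (K - j)
  refine h3.congr' ?_
  filter_upwards [eventually_ge_atTop 1] with M hM
  have hM0 : (M : ℝ) ≠ 0 := by positivity
  push_cast
  rw [sum_div]
  apply sum_congr rfl
  intro j hj
  rw [mem_range] at hj
  have h4 : (M : ℝ) ^ K = (M : ℝ) ^ j * (M : ℝ) ^ (K - j) := by
    rw [← pow_add]
    congr 1
    omega
  rw [h4]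
  field_simp

theorem acoef_tendsto {n p : ℕ} (hn : 2 ≤ n) (hp : p < 2) (K : ℕ) (hK : 1 ≤ K) :
    Tendsto (fun M : ℕ => ((acoef n p (n * M) K).natAbs : ℝ) / (M : ℝ) ^ K) atTop
      (𝓝 (((n - (n + 1 - p) / 2 : ℕ) : ℝ) ^ K / K.factorial)) := by
  have h1 := main_tendsto hn hp K
  set mn : ℕ → ℤ := fun M => ∑ j ∈ range (K + 1), (-1) ^ j *
      (((n * M).choose j : ℕ) : ℤ) * (((VV n p M - 1 - j).choose (K - j) : ℕ) : ℤ) with hmn
  set D : ℕ := 2 * (K * (2 ^ ((2 * (n + 1)) ^ 2)) ^ K) with hD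
  have h2 : Tendsto (fun M : ℕ => (D : ℝ) * (((VV n p M : ℝ) / M + n) ^ (K - 1) * (1 / M))) atTop
      (𝓝 0) := by
    have h3 := VV_tendsto (n := n) (p := p) (by omega) hp
    have h4 : Tendsto (fun M : ℕ => (1 : ℝ) / M) atTop (𝓝 0) :=
      tendsto_const_div_atTop_nhds_zero_nat 1
    have h5 := (((h3.add_const (n : ℝ)).pow (K - 1)).mul h4).const_mul (D : ℝ)
    rwa [mul_zero, mul_zero] at h5
  have h3 : ∀ᶠ M : ℕ in atTop, |(((-1) ^ (VV n p M - 1) * acoef n p (n * M) K : ℤ) : ℝ) / (M : ℝ) ^ K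
      - (mn M : ℝ) / (M : ℝ) ^ K| ≤
      (D : ℝ) * (((VV n p M : ℝ) / M + n) ^ (K - 1) * (1 / M)) := by
    filter_upwards [eventually_ge_atTop 4, (VV_atTop hn hp).eventually_gt_atTop K] with M hM hV
    have h4 := acoef_main (L := n * M) hn (Dvd.intro _ rfl)
      (by rw [mul_comm 4 n]; exact Nat.mul_le_mul_left _ hM) hp K hV
    have hM0 : (0 : ℝ) < M := by positivity
    rw [← sub_div, abs_div, abs_of_pos (pow_pos hM0 K), div_le_iff₀ (pow_pos hM0 K)]
    have h5 : |(((-1) ^ (VV n p M - 1) * acoef n p (n * M) K : ℤ) : ℝ) - (mn M : ℝ)| =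
        ((((-1) ^ (VV n p M - 1) * acoef n p (n * M) K - mn M : ℤ).natAbs : ℕ) : ℝ) := by
      rw [Nat.cast_natAbs]
      push_cast
      rfl
    rw [h5]
    have h6 : ((((-1) ^ (VV n p M - 1) * acoef n p (n * M) K - mn M : ℤ).natAbs : ℕ) : ℝ) ≤
        ((2 * (K * ((2 ^ ((2 * (n + 1)) ^ 2)) ^ K * (VV n p M + n * M) ^ (K - 1))) : ℕ) : ℝ) := by
      exact_mod_cast h4
    refine h6.trans (le_of_eq ?_)
    have h7 : (M : ℝ) ^ K = (M : ℝ) ^ (K - 1) * M := by
      rw [← pow_succ]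
      congr 1
      omega
    have h8 : ((VV n p M : ℝ) / M + n) = (((VV n p M + n * M : ℕ) : ℝ)) / M := by
      push_cast
      field_simp
    rw [h7, h8, div_pow, hD]
    push_cast
    field_simp
  have h4 : Tendsto (fun M : ℕ => (((-1) ^ (VV n p M - 1) * acoef n p (n * M) K : ℤ) : ℝ) /
      (M : ℝ) ^ K - (mn M : ℝ) / (M : ℝ) ^ K) atTop (𝓝 0) :=
    squeeze_zero_norm' (by simpa only [Real.norm_eq_abs] using h3) h2
  have h5 := h4.add h1
  rw [zero_add] at h5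
  have h6 := h5.abs
  have h7 : |(((((n + 1 - p) / 2 : ℕ) : ℝ) - n) ^ K / K.factorial)| =
      ((n - (n + 1 - p) / 2 : ℕ) : ℝ) ^ K / K.factorial := by
    rw [abs_div, abs_pow, Nat.abs_cast, abs_sub_comm, Nat.cast_sub (by omega : (n + 1 - p) / 2 ≤ n)]
    congr 2
    apply abs_of_nonneg
    have : (((n + 1 - p) / 2 : ℕ) : ℝ) ≤ n := by exact_mod_cast (by omega : (n + 1 - p) / 2 ≤ n)
    linarith
  rw [h7] at h6
  refine h6.congr (fun M => ?_)
  rw [sub_add_cancel, abs_div, abs_pow, Nat.abs_cast, Int.cast_mul, abs_mul, Int.cast_pow, abs_pow,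
    Int.cast_neg, Int.cast_one, abs_neg, abs_one, one_pow, one_mul, Nat.cast_natAbs, Int.cast_abs]

theorem twist_tendsto {n : ℕ} (hn : 2 ≤ n) (K : ℕ) (hK : 1 ≤ K) :
    Tendsto (fun M : ℕ => (twist (diagram (braidClosure (n + 1)) (weave n M)).fPoly K : ℝ) /
      (M : ℝ) ^ K) atTop
      (𝓝 ((((n / 2 + n % 2 : ℕ) : ℝ) ^ K + ((n / 2 : ℕ) : ℝ) ^ K) / K.factorial)) := by
  have h0 := acoef_tendsto (p := 0) hn (by norm_num) K hK
  have h1 := acoef_tendsto (p := 1) hn (by norm_num) K hK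
  have e0 : n - (n + 1 - 0) / 2 = n / 2 := by omega
  have e1 : n - (n + 1 - 1) / 2 = n / 2 + n % 2 := by omega
  rw [e0] at h0
  rw [e1] at h1
  have h2 := h1.add h0
  rw [← add_div] at h2
  refine h2.congr' ?_
  filter_upwards [eventually_ge_atTop 4] with M hM
  have hL : 4 * n ≤ n * M := by rw [mul_comm 4 n]; exact Nat.mul_le_mul_left _ hM
  rw [twist_eq n M K (by omega) (acoef_zero hn (Dvd.intro _ rfl) hL (by norm_num))
    (acoef_zero hn (Dvd.intro _ rfl) hL (by norm_num))]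
  push_cast
  ring

end Pool.Agent.H207.WT
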