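import Pool.Agent.H207.WT.Word

/-!
# Flipping crossings far from each other
-/

set_option autoImplicit false

namespace Pool.Agent.H207.WT

open Pool.Agent.TH561 Pool.Agent.H891R2.Jones

variable {n p L : ℕ} {S : Finset ℕ}

/-- the places `x` and `y` are at cyclic distance at most `n` -/
def Close (n L x y : ℕ) : Prop := ∃ j ≤ n, (x + j) % L = y ∨ (y + j) % L = x

lemma Close.symm {x y : ℕ} (h : Close n L x y) : Close n L y x := by
  obtain ⟨j, hj, h⟩ := h
  exact ⟨j, hj, h.symm⟩

lemma close_self {x : ℕ} (hx : x < L) : Close n L x x :=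
  ⟨0, Nat.zero_le _, Or.inl (by rw [add_zero, Nat.mod_eq_of_lt hx])⟩

lemma touch_le {a i : ℕ} (hn : 2 ≤ n) (h : Touch n a i) : i ≤ n := by
  rcases h with h | h | h | h <;> omega

lemma par_prev {c p : ℕ} (hp : p < 2) (h : c % 2 ≠ p) (hc : 1 ≤ c) : (c - 1) % 2 = p := by omega

lemma exists_touch (hn : 2 ≤ n) (hL : n ∣ L) (hL2 : n + 1 ≤ L) (hp : p < 2) {x : ℕ} (hx : x < L) :
    ∃ a i, (a % n) % 2 = p ∧ Touch n a i ∧ (a + i) % L = x := by
  have hxn : (x + L) % n = x % n := by
    obtain ⟨k, rfl⟩ := hL
    rw [Nat.add_mul_mod_self_left]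
  have hxL : (x + L) % L = x := by rw [Nat.add_mod_right, Nat.mod_eq_of_lt hx]
  have hcn : x % n < n := Nat.mod_lt _ (by omega)
  by_cases h1 : (x % n) % 2 = p
  · exact ⟨x, 0, h1, Or.inl rfl, by rw [add_zero, Nat.mod_eq_of_lt hx]⟩
  · rcases Nat.eq_zero_or_pos (x % n) with h2 | h2
    · have e : (x + L - (n - 1)) % n = 1 % n := by
        have : (x + L - (n - 1)) + (n - 1) = x + L := by omega
        have h3 : ((x + L - (n - 1)) + (n - 1)) % n = (1 + (n - 1)) % n := by
          rw [this, hxn, h2]
          have : 1 + (n - 1) = n := by omega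
          rw [this, Nat.mod_self]
        exact Nat.ModEq.add_right_cancel' (n - 1) h3
      rw [Nat.mod_eq_of_lt (show 1 < n by omega)] at e
      refine ⟨x + L - (n - 1), n - 1, by rw [e]; omega, Or.inr (Or.inr (Or.inr ⟨rfl, by omega⟩)), ?_⟩
      have : x + L - (n - 1) + (n - 1) = x + L := by omega
      rw [this, hxL]
    · have e : (x + L - 1) % n = x % n - 1 := by
        have h3 : (x + L - 1) + 1 = x + L := by omega
        have h4 : ((x + L - 1) + 1) % n = ((x % n - 1) + 1) % n := by
          rw [h3, hxn, Nat.sub_add_cancel h2, Nat.mod_mod]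
        have h5 := Nat.ModEq.add_right_cancel' 1 h4
        have h6 : (x % n - 1) % n = x % n - 1 := Nat.mod_eq_of_lt (by omega)
        rw [← h6]
        exact h5
      refine ⟨x + L - 1, 1, by rw [e]; exact par_prev hp h1 h2,
        Or.inr (Or.inr (Or.inl ⟨rfl, by omega⟩)), ?_⟩
      have : x + L - 1 + 1 = x + L := by omega
      rw [this, hxL]

/-- two places touched by the same curve are close -/
lemma close_of_touch (hn : 2 ≤ n) {a i j : ℕ} (hi : Touch n a i) (hj : Touch n a j) :
    Close n L ((a + i) % L) ((a + j) % L) := by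
  have h1 := touch_le hn hi
  have h2 := touch_le hn hj
  rcases le_total i j with h | h
  · refine ⟨j - i, by omega, Or.inl ?_⟩
    rw [Nat.mod_add_mod]
    congr 1
    omega
  · refine ⟨i - j, by omega, Or.inr ?_⟩
    rw [Nat.mod_add_mod]
    congr 1
    omega

/-- flipping a crossing far from the other flipped crossings -/
theorem insert_far (hn : 2 ≤ n) (hL : n ∣ L) (hL2 : n + 1 ≤ L) (hp : p < 2) {x : ℕ} (hx : x < L)
    (hS : ∀ y ∈ S, ¬ Close n L x y) : Lam n p L S = Lam n p L (insert x S) + 1 := by
  obtain ⟨a, i, h1, h2, rfl⟩ := exists_touch hn hL hL2 hp hx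
  refine merge hn hL hL2 h1 (fun j hj hjS => ?_) h2
  exact hS _ hjS (close_of_touch hn h2 hj)

lemma pair_of (hn : 2 ≤ n) (hL : n ∣ L) (hL2 : n + 1 ≤ L) (hp : p < 2) {x y a i : ℕ}
    (hy : y < L) (ha : (a % n) % 2 = p) (hi : Touch n a i) (hx : (a + i) % L = x)
    (hav : ∀ j, Touch n a j → (a + j) % L ≠ y) :
    Lam n p L {x, y} + 2 = Lam n p L ∅ := by
  have h1 := merge (S := {y}) hn hL hL2 ha (fun j hj h => hav j hj (Finset.mem_singleton.1 h)) hi
  have h2 := insert_far (S := ∅) hn hL hL2 hp hy (by simp)
  rw [hx] at h1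
  rw [insert_empty_eq] at h2
  omega

/-- avoiding a place in a window -/
lemma avoid {a E t : ℕ} (hn : 2 ≤ n) (hL : 4 * n ≤ L) (h1 : a ≤ E + t) (h2 : E + t < a + L)
    (h : ∀ j, Touch n a j → a + j ≠ E + t) : ∀ j, Touch n a j → (a + j) % L ≠ (E + t) % L := by
  intro j hj he
  have h3 := touch_le hn hj
  exact h j hj (mod_window (a := a) (L := L) (by omega) (by omega) h1 h2 he)

/-- reduction of a column index -/
lemma col_add {E c t : ℕ} (hc : E % n = c) (h : c + t < n) : (E + t) % n = c + t := by
  rw [← Nat.mod_add_mod, hc, Nat.mod_eq_of_lt h]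

lemma col_sub {E c t : ℕ} (hn : 0 < n) (htE : t ≤ E) (hc : E % n = c) (h : t ≤ c) :
    (E - t) % n = c - t := by
  have h1 : ((E - t) + t) % n = ((c - t) + t) % n := by
    rw [Nat.sub_add_cancel htE, Nat.sub_add_cancel h, ← hc, Nat.mod_mod]
  have h2 := Nat.ModEq.add_right_cancel' t h1
  have h3 : (c - t) % n = c - t := Nat.mod_eq_of_lt (by
    have := Nat.mod_lt E hn
    omega)
  rw [← h3]
  exact h2

lemma w_rep {m : ℕ} {c : ℕ} (hc : c + 1 < m) (Z : List ℕ) : ∀ k : ℕ,
    WP (KK m 2) (List.replicate k c ++ c :: Z) = (2 : ℂ) ^ k • WP (KK m 2) (c :: Z) := by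
  intro k
  induction k with
  | zero => simp
  | succ k ih =>
    have e : List.replicate (k + 1) c ++ c :: Z = c :: (List.replicate k c ++ c :: Z) := by
      rw [List.replicate_succ, List.cons_append]
    rw [e, WP_cons, ih, mul_smul_comm, WP_cons, ← mul_assoc, (tl m).sq c hc, smul_mul_assoc,
      smul_smul, pow_succ]

lemma lam_one : lam 4 [1] = 3 := by
  apply pow_inj
  have h := markov2 (m := 4) 1 [] (by omega) (by simp)
  rw [List.nil_append] at h
  rw [← tr_lam (ok_single (by omega))]
  have h2 : tr 4 [] = 2 ^ 4 := by rw [tr_lam ok_nil, lam_nil]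
  rw [h2] at h
  linear_combination h / 2

lemma lam_120 : lam 4 [1, 2, 0] = 1 := by
  have hok : Ok 4 [1, 2, 0] := by
    intro i hi
    simp only [List.mem_cons, List.not_mem_nil, or_false] at hi
    omega
  apply pow_inj
  have h2 : tr 4 [] = 2 ^ 4 := by rw [tr_lam ok_nil, lam_nil]
  have a0 := markov2 (m := 4) 0 [] (by omega) (by simp)
  have a1 := markov2 (m := 4) 1 [0] (by omega) (by simp)
  have a2 := markov2 (m := 4) 2 [0, 1] (by omega) (by simp)
  rw [List.nil_append] at a0
  have e1 : ([0] ++ [1] : List ℕ) = [0, 1] := rfl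
  have e2 : ([0, 1] ++ [2] : List ℕ) = [0, 1, 2] := rfl
  rw [e1] at a1
  rw [e2] at a2
  rw [← tr_lam hok]
  have e3 : tr 4 [1, 2, 0] = tr 4 [0, 1, 2] := by
    have := tr_cyc (m := 4) [1, 2] [0]
    exact this
  rw [e3]
  rw [h2] at a0
  linear_combination a2 / 2 + a1 / 4 + a0 / 8

/-- the exceptional pair -/
lemma pair_special (hL : 3 ∣ L) (hL2 : 12 ≤ L) {E : ℕ} (hE : E % 3 = 2) :
    Lam 3 1 L {E % L, (E + 1) % L} + 2 = Lam 3 1 L ∅ := by
  set S : Finset ℕ := {E % L, (E + 1) % L} with hS
  obtain ⟨K, hK⟩ : ∃ K, L = 1 + 1 + 1 + K := ⟨L - 3, by omega⟩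
  have hstE : ∀ b, E - 1 ≤ b → b < E - 1 + L → b ≠ E → b ≠ E + 1 → st 3 1 L S b = st 3 1 L ∅ b := by
    intro b h1 h2 h3 h4
    have hnot : b % L ∉ S := by
      intro h
      rw [hS, Finset.mem_insert, Finset.mem_singleton] at h
      rcases h with h | h
      · exact h3 (mod_window (a := E - 1) h1 h2 (by omega) (by omega) h)
      · exact h4 (mod_window (a := E - 1) h1 h2 (by omega) (by omega) h)
    rw [st_not hnot, st_not (S := ∅) (by simp)]
  have hmem1 : E % L ∈ S := by rw [hS]; simp
  have hmem2 : (E + 1) % L ∈ S := by rw [hS]; simp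
  have c0 : (E - 1) % 3 = 1 := by omega
  have c2 : (E + 1) % 3 = 0 := by omega
  have s0 : st 3 1 L S (E - 1) = true := by
    rw [hstE _ le_rfl (by omega) (by omega) (by omega), st_not (by simp), c0]; rfl
  have s1 : st 3 1 L S E = true := by
    unfold st; simp [hmem1, hE]
  have s2 : st 3 1 L S (E + 1) = true := by
    unfold st; simp [hmem2, c2]
  have t0 : st 3 1 L ∅ (E - 1) = true := by rw [st_not (by simp), c0]; rfl
  have t1 : st 3 1 L ∅ E = false := by rw [st_not (by simp), hE]; rfl
  have t2 : st 3 1 L ∅ (E + 1) = false := by rw [st_not (by simp), c2]; rfl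
  rw [Lam_rot (by norm_num) hL (E - 1), Lam_rot (by norm_num) hL (E - 1)]
  set R := wd 3 (st 3 1 L ∅) (E + 2) K with hR
  have hw : ∀ X : ℕ → Bool, wd 3 X (E - 1) L = (if X (E - 1) then [(E - 1) % 3] else []) ++
      (if X E then [E % 3] else []) ++ (if X (E + 1) then [(E + 1) % 3] else []) ++
        wd 3 X (E + 2) K := by
    intro X
    have g1 : E - 1 + 1 = E := by omega
    have g2 : E - 1 + (1 + 1) = E + 1 := by omega
    have g3 : E - 1 + (1 + 1 + 1) = E + 2 := by omega
    rw [hK, wd_add, wd_add, wd_add, wd_one, wd_one, wd_one, g1, g2, g3]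
  have hRS : wd 3 (st 3 1 L S) (E + 2) K = R :=
    wd_congr (fun b h1 h2 => hstE b (by omega) (by omega) (by omega) (by omega))
  have hRrep : R = List.replicate R.length 1 := by
    apply List.eq_replicate_of_mem
    intro b hb
    obtain ⟨x, _, _, h3, h4⟩ := wd_mem hb
    rw [st_not (by simp)] at h3
    simp only [decide_eq_true_eq] at h3
    omega
  have hRok : Ok 4 R := wd_ok (n := 3) (by norm_num) _ _ _
  rw [hw, hw, hRS, s0, s1, s2, t0, t1, t2, c0, hE, c2]
  simp only [if_true, Bool.false_eq_true, if_false, List.append_nil]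
  have o1 : Ok 4 [1] := ok_single (by omega)
  have o3 : Ok 4 [1, 2, 0] := by
    intro i hi
    simp only [List.mem_cons, List.not_mem_nil, or_false] at hi
    omega
  have e1 : lam (3 + 1) ([1] ++ R) = R.length + lam 4 [1] := by
    rw [lam_cyc o1 hRok]
    apply pow_inj
    rw [← tr_lam (hRok.append o1), pow_add, ← tr_lam o1]
    have h := tr_repl (w_rep (m := 4) (c := 1) (by omega) [] R.length) [] []
    rw [← hRrep] at h
    simpa using h
  have e2 : lam (3 + 1) ([1] ++ [2] ++ [0] ++ R) = R.length + lam 4 [1, 2, 0] := by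
    have e3 : ([1] ++ [2] ++ [0] : List ℕ) = [1, 2, 0] := rfl
    rw [e3, lam_cyc o3 hRok]
    apply pow_inj
    rw [← tr_lam (hRok.append o3), pow_add, ← tr_lam o3]
    have h := tr_repl (w_rep (m := 4) (c := 1) (by omega) [2, 0] R.length) [] []
    rw [← hRrep] at h
    simpa using h
  rw [e1, e2, lam_one, lam_120]

/-- two flipped crossings at a distance at most `n` -/
lemma pair_close (hn : 2 ≤ n) (hL : n ∣ L) (hL2 : 4 * n ≤ L) (hp : p < 2) {E t : ℕ} (hE : L ≤ E)
    (ht1 : 1 ≤ t) (ht2 : t ≤ n) : Lam n p L {E % L, (E + t) % L} + 2 = Lam n p L ∅ := by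
  have hL3 : n + 1 ≤ L := by omega
  have hL0 : 0 < L := by omega
  have hEL : E % L < L := Nat.mod_lt _ hL0
  have hEtL : (E + t) % L < L := Nat.mod_lt _ hL0
  have hcn : E % n < n := Nat.mod_lt _ (by omega)
  by_cases h1 : (E % n) % 2 = p
  · -- the curve below
    have hc : (E - n) % n = E % n := (Nat.mod_eq_sub_mod (by omega)).symm
    refine pair_of (a := E - n) (i := n) hn hL hL3 hp hEtL (by rw [hc]; exact h1)
      (Or.inr (Or.inl rfl)) (by rw [Nat.sub_add_cancel (by omega)]) ?_
    exact avoid hn hL2 (by omega) (by omega) (fun j hj => by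
      have := touch_le hn hj
      omega)
  by_cases h2 : E % n + 1 < n
  · rcases Nat.lt_or_ge 1 t with h3 | h3
    · -- the left curve of the place
      have hcol : (E - n + 1) % n = E % n + 1 := by
        have hc : (E - n) % n = E % n := (Nat.mod_eq_sub_mod (by omega)).symm
        exact col_add hc h2
      refine pair_of (a := E - n + 1) (i := n - 1) hn hL hL3 hp hEtL (by rw [hcol]; omega)
        (Or.inr (Or.inr (Or.inr ⟨rfl, by omega⟩))) (by congr 1; omega) ?_
      exact avoid hn hL2 (by omega) (by omega) (fun j hj => by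
        have := touch_le hn hj
        omega)
    · have ht : t = 1 := by omega
      subst ht
      have hcol : (E + 1) % n = E % n + 1 := col_add rfl h2
      have := pair_of (a := E + 1) (i := 0) (x := (E + 1) % L) (y := (E + L) % L) hn hL hL3 hp
        (by rw [Nat.add_mod_right]; exact hEL) (by rw [hcol]; omega)
        (Or.inl rfl) (by rw [add_zero]) (avoid hn hL2 (by omega) (by omega) (fun j hj => by
          have := touch_le hn hj
          omega))
      rw [Nat.add_mod_right, Finset.pair_comm] at this
      exact this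
  · -- last column
    have hc : E % n = n - 1 := by omega
    have hcolm : (E - 1) % n = n - 2 := by
      rw [col_sub (by omega) (by omega) hc (by omega)]
      omega
    by_cases h3 : t = n - 1
    · have hcol : (E + t) % n = n - 2 := by
        have : E + t = (E - 1) + n := by omega
        rw [this, Nat.add_mod_right, hcolm]
      have := pair_of (a := E + t) (i := 0) (x := (E + t) % L) (y := (E + L) % L) hn hL hL3 hp
        (by rw [Nat.add_mod_right]; exact hEL) (by rw [hcol]; omega)
        (Or.inl rfl) (by rw [add_zero]) (avoid hn hL2 (by omega) (by omega) (fun j hj => by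
          have := touch_le hn hj
          omega))
      rw [Nat.add_mod_right, Finset.pair_comm] at this
      exact this
    by_cases h4 : t = n - 2 ∧ 2 < n
    · obtain ⟨h4, h5⟩ := h4
      rcases Nat.lt_or_ge 3 n with h6 | h6
      · have hcol : (E + t - 1) % n = n - 4 := by
          have : E + t - 1 = (E - 3) + n := by omega
          rw [this, Nat.add_mod_right, col_sub (by omega) (by omega) hc (by omega)]
          omega
        have := pair_of (a := E + t - 1) (i := 1) (x := (E + t) % L) (y := (E + L) % L) hn hL hL3 hp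
          (by rw [Nat.add_mod_right]; exact hEL) (by rw [hcol]; omega)
          (Or.inr (Or.inr (Or.inl ⟨rfl, by rw [hcol]; omega⟩))) (by congr 1; omega)
          (avoid hn hL2 (by omega) (by omega) (fun j hj => by
            have := touch_le hn hj
            omega))
        rw [Nat.add_mod_right, Finset.pair_comm] at this
        exact this
      · have hn3 : n = 3 := by omega
        subst hn3
        have ht : t = 1 := by omega
        subst ht
        have hp1 : p = 1 := by omega
        subst hp1
        exact pair_special hL (by omega) (by omega)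
    · refine pair_of (a := E - 1) (i := 1) hn hL hL3 hp hEtL (by rw [hcolm]; omega)
        (Or.inr (Or.inr (Or.inl ⟨rfl, by omega⟩))) (by congr 1; omega) ?_
      refine avoid hn hL2 (by omega) (by omega) (fun j hj => ?_)
      rcases hj with h | h | h | ⟨h, h'⟩
      · omega
      · omega
      · omega
      · rw [hcolm] at h'
        omega

/-- any two flipped crossings -/
theorem pair (hn : 2 ≤ n) (hL : n ∣ L) (hL2 : 4 * n ≤ L) (hp : p < 2) {x y : ℕ} (hx : x < L)
    (hy : y < L) (hxy : x ≠ y) : Lam n p L {x, y} + 2 = Lam n p L ∅ := by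
  by_cases hc : Close n L x y
  · obtain ⟨j, hj, h | h⟩ := hc
    · have hj1 : 1 ≤ j := by
        by_contra h0
        have : j = 0 := by omega
        subst this
        rw [add_zero, Nat.mod_eq_of_lt hx] at h
        exact hxy h
      have := pair_close (E := x + L) (t := j) hn hL hL2 hp (by omega) hj1 hj
      have e1 : (x + L) % L = x := by rw [Nat.add_mod_right, Nat.mod_eq_of_lt hx]
      have e2 : (x + L + j) % L = y := by
        rw [← h]
        have : x + L + j = (x + j) + L := by ring
        rw [this, Nat.add_mod_right]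
      rwa [e1, e2] at this
    · have hj1 : 1 ≤ j := by
        by_contra h0
        have : j = 0 := by omega
        subst this
        rw [add_zero, Nat.mod_eq_of_lt hy] at h
        exact hxy h.symm
      have := pair_close (E := y + L) (t := j) hn hL hL2 hp (by omega) hj1 hj
      have e1 : (y + L) % L = y := by rw [Nat.add_mod_right, Nat.mod_eq_of_lt hy]
      have e2 : (y + L + j) % L = x := by
        rw [← h]
        have : y + L + j = (y + j) + L := by ring
        rw [this, Nat.add_mod_right]
      rw [e1, e2, Finset.pair_comm] at this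
      exact this
  · have h1 := insert_far (S := {y}) hn hL (by omega) hp hx (by
      intro z hz
      rw [Finset.mem_singleton] at hz
      rw [hz]
      exact hc)
    have h2 := insert_far (S := ∅) hn hL (by omega) hp hy (by simp)
    rw [insert_empty_eq] at h2
    omega

/-- adding far crossings one after the other -/
theorem add_spread (hn : 2 ≤ n) (hL : n ∣ L) (hL2 : n + 1 ≤ L) (hp : p < 2) (S : Finset ℕ)
    (T : Finset ℕ) (hT : ∀ x ∈ T, x < L) (hTT : ∀ x ∈ T, ∀ y ∈ T, x ≠ y → ¬ Close n L x y)
    (hTS : ∀ x ∈ T, ∀ y ∈ S, ¬ Close n L x y) :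
    Lam n p L S = Lam n p L (T ∪ S) + T.card := by
  classical
  induction T using Finset.induction_on with
  | empty => simp
  | insert x T hx ih =>
    have h1 := ih (fun y hy => hT y (Finset.mem_insert_of_mem hy))
      (fun y hy z hz => hTT y (Finset.mem_insert_of_mem hy) z (Finset.mem_insert_of_mem hz))
      (fun y hy => hTS y (Finset.mem_insert_of_mem hy))
    have h2 := insert_far (S := T ∪ S) hn hL hL2 hp (hT x (Finset.mem_insert_self _ _)) (by
      intro y hy
      rcases Finset.mem_union.1 hy with hy | hy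
      · exact hTT x (Finset.mem_insert_self _ _) y (Finset.mem_insert_of_mem hy)
          (fun h => hx (by rw [h]; exact hy))
      · exact hTS x (Finset.mem_insert_self _ _) y hy)
    rw [Finset.insert_union, Finset.card_insert_of_notMem hx]
    omega

/-- monotonicity -/
theorem mono_le (hn : 0 < n) {T S : Finset ℕ} (hTS : T ⊆ S) (hS : ∀ x ∈ S, x < L) :
    Lam n p L S + T.card ≤ Lam n p L T + S.card := by
  classical
  obtain ⟨R, hR, rfl⟩ : ∃ R : Finset ℕ, Disjoint R T ∧ S = R ∪ T :=
    ⟨S \ T, Finset.sdiff_disjoint, (Finset.sdiff_union_of_subset hTS).symm⟩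
  rw [Finset.card_union_of_disjoint hR]
  clear hTS
  induction R using Finset.induction_on with
  | empty => simp
  | insert x R hx ih =>
    have hd : Disjoint R T := Disjoint.mono_left (Finset.subset_insert _ _) hR
    have h1 := ih hd (fun y hy => hS y (by
      rw [Finset.insert_union]
      exact Finset.mem_insert_of_mem hy))
    have hxT : x ∉ T := Finset.disjoint_left.1 hR (Finset.mem_insert_self _ _)
    have h2 := Lam_flip (p := p) (L := L) (S := R ∪ T) (x := x) hn
      (hS x (by rw [Finset.insert_union]; exact Finset.mem_insert_self _ _)) (by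
        rw [Finset.mem_union]
        rintro (h | h)
        · exact hx h
        · exact hxT h)
    rw [Finset.insert_union, Finset.card_insert_of_notMem hx]
    omega

/-- parity -/
theorem parity (hn : 0 < n) {S : Finset ℕ} (hS : ∀ x ∈ S, x < L) :
    (Lam n p L S + S.card) % 2 = Lam n p L ∅ % 2 := by
  classical
  induction S using Finset.induction_on with
  | empty => simp
  | insert x S hx ih =>
    have h1 := ih (fun y hy => hS y (Finset.mem_insert_of_mem hy))
    have h2 := Lam_flip (p := p) (L := L) (S := S) (x := x) hn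
      (hS x (Finset.mem_insert_self _ _)) hx
    rw [Finset.card_insert_of_notMem hx]
    omega

end Pool.Agent.H207.WT
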