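import Pool.Agent.H207.WT.Sum
import Pool.Agent.H207.WT.Spread

/-!
# Coefficients of the bracket of the closure of the weaving braid
-/

set_option autoImplicit false

namespace Pool.Agent.H207.WT

open Pool.Agent.TH561 Pool.Agent.H891R2.Jones Pool.Agent.W639.RB Finset LaurentPolynomial

/-- the depth of a state -/
noncomputable def hh (n p L : ℕ) (S : Finset ℕ) : ℕ := (S.card + Lam n p L ∅ - Lam n p L S) / 2

lemma hh_eq {n p L : ℕ} (hn : 0 < n) {S : Finset ℕ} (hS : ∀ x ∈ S, x < L) :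
    2 * hh n p L S + Lam n p L S = S.card + Lam n p L ∅ := by
  have h1 := parity (p := p) hn hS
  have h2 := mono_le (p := p) hn (empty_subset S) hS
  rw [card_empty] at h2
  unfold hh
  omega

lemma Lam_pos {n p L : ℕ} (hn : 0 < n) (S : Finset ℕ) : 0 < Lam n p L S :=
  lam_pos (by omega) (wd_ok hn _ _ _)

/-- the `K`-th coefficient from the extreme one -/
noncomputable def acoef (n p L K : ℕ) : ℤ :=
  ∑ S ∈ (range L).powerset, (-1) ^ (Lam n p L S - 1) *
    (if hh n p L S ≤ K then (((Lam n p L S - 1).choose (K - hh n p L S) : ℕ) : ℤ) else 0)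

/-- the extreme exponent -/
noncomputable def top (n p L : ℕ) : ℤ := (L : ℤ) + 2 * ((Lam n p L ∅ : ℤ) - 1)

lemma dl_coeff_symm (k : ℕ) (e : ℤ) : ((dl : ℤ[T;T⁻¹]) ^ k).coeff (-e) = (dl ^ k).coeff e := by
  rw [dl_pow_coeff, dl_pow_coeff, ← sum_range_reflect]
  congr 1
  apply sum_congr rfl
  intro i hi
  rw [mem_range] at hi
  have e1 : k + 1 - 1 - i = k - i := by omega
  rw [e1, Nat.choose_symm (by omega), Nat.cast_sub (show i ≤ k by omega)]
  by_cases h : e = 2 * k - 4 * i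
  · rw [if_pos h, if_pos (by rw [h]; ring)]
  · rw [if_neg h, if_neg (fun h' => h (by linarith))]

lemma dl_coeff_at (k i : ℕ) : ((dl : ℤ[T;T⁻¹]) ^ k).coeff (2 * k - 4 * i) =
    (-1) ^ k * ((k.choose i : ℕ) : ℤ) := by
  rw [dl_pow_coeff]
  congr 1
  by_cases hi : i < k + 1
  · rw [sum_eq_single_of_mem i (mem_range.2 hi)]
    · simp
    · intro j _ hj
      rw [if_neg]
      intro h
      apply hj
      omega
  · rw [Nat.choose_eq_zero_of_lt (by omega), Nat.cast_zero]
    apply sum_eq_zero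
    intro j hj
    rw [mem_range] at hj
    rw [if_neg]
    intro h
    omega

lemma dl_coeff_ne {k : ℕ} {e : ℤ} (h : ((dl : ℤ[T;T⁻¹]) ^ k).coeff e ≠ 0) :
    ∃ i : ℕ, e = 2 * k - 4 * i := by
  by_contra hc
  push Not at hc
  apply h
  rw [dl_pow_coeff, sum_eq_zero, mul_zero]
  intro i _
  rw [if_neg (hc i)]

lemma eps_sq {p : ℕ} (hp : p < 2) : eps p = 1 ∨ eps p = -1 := by
  unfold eps
  have : p = 0 ∨ p = 1 := by omega
  rcases this with rfl | rfl <;> simp

lemma bracket_coeff (n p M : ℕ) (hn : 0 < n) (hp : p < 2) (e : ℤ) :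
    (diagram (braidClosure (n + 1)) (weave n M)).bracket.coeff (eps p * e) =
      ∑ S ∈ (range (n * M)).powerset,
        ((dl : ℤ[T;T⁻¹]) ^ (Lam n p (n * M) S - 1)).coeff
          (e - (((n * M : ℕ) : ℤ) - 2 * S.card)) := by
  rw [bracket_sum n p M hn hp, AddMonoidAlgebra.coeff_sum, Finset.sum_apply']
  apply sum_congr rfl
  intro S _
  rw [coeff_T_mul, ← mul_sub]
  rcases eps_sq hp with h | h
  · rw [h, one_mul]
  · rw [h, neg_one_mul, dl_coeff_symm]

lemma bracket_coeff_top (n p M K : ℕ) (hn : 0 < n) (hp : p < 2) :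
    (diagram (braidClosure (n + 1)) (weave n M)).bracket.coeff
      (eps p * (top n p (n * M) - 4 * K)) = acoef n p (n * M) K := by
  rw [bracket_coeff n p M hn hp]
  unfold acoef
  apply sum_congr rfl
  intro S hS
  have hS' : ∀ x ∈ S, x < n * M := fun x hx => mem_range.1 (mem_powerset.1 hS hx)
  have h1 := hh_eq (p := p) hn hS'
  have h2 := Lam_pos (p := p) (L := n * M) hn S
  have h3 := Lam_pos (p := p) (L := n * M) hn ∅
  have h4 : top n p (n * M) - 4 * K - (((n * M : ℕ) : ℤ) - 2 * S.card) =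
      2 * ((Lam n p (n * M) S - 1 : ℕ) : ℤ) - 4 * ((K : ℤ) - hh n p (n * M) S) := by
    unfold top
    push_cast [Nat.cast_sub (show 1 ≤ Lam n p (n * M) S from h2)]
    have h1' : (2 * hh n p (n * M) S + Lam n p (n * M) S : ℤ) = S.card + Lam n p (n * M) ∅ := by
      exact_mod_cast h1
    linarith
  rw [h4]
  by_cases hK : hh n p (n * M) S ≤ K
  · rw [if_pos hK, ← Nat.cast_sub hK, dl_coeff_at]
  · rw [if_neg hK, mul_zero]
    by_contra hc
    obtain ⟨i, hi⟩ := dl_coeff_ne hc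
    omega

lemma bracket_coeff_ne (n p M : ℕ) (hn : 0 < n) (hp : p < 2) {e : ℤ}
    (h : (diagram (braidClosure (n + 1)) (weave n M)).bracket.coeff (eps p * e) ≠ 0) :
    ∃ K : ℕ, e = top n p (n * M) - 4 * K := by
  rw [bracket_coeff n p M hn hp] at h
  obtain ⟨S, hS, hne⟩ := exists_ne_zero_of_sum_ne_zero h
  obtain ⟨i, hi⟩ := dl_coeff_ne hne
  have hS' : ∀ x ∈ S, x < n * M := fun x hx => mem_range.1 (mem_powerset.1 hS hx)
  have h1 := hh_eq (p := p) hn hS'
  have h2 := Lam_pos (p := p) (L := n * M) hn S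
  refine ⟨hh n p (n * M) S + i, ?_⟩
  unfold top
  rw [Nat.cast_sub (show 1 ≤ Lam n p (n * M) S from h2)] at hi
  have h1' : (2 * hh n p (n * M) S + Lam n p (n * M) S : ℤ) = S.card + Lam n p (n * M) ∅ := by
    exact_mod_cast h1
  push_cast at hi ⊢
  linarith

/-! ### extreme exponents and the twist number of a Laurent polynomial -/

/-- the lowest exponent of a Laurent polynomial -/
noncomputable def loExp (f : ℤ[T;T⁻¹]) : ℤ := sInf {e : ℤ | f.coeff e ≠ 0}

/-- the highest exponent of a Laurent polynomial -/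
noncomputable def hiExp (f : ℤ[T;T⁻¹]) : ℤ := sSup {e : ℤ | f.coeff e ≠ 0}

/-- the `k`-th twist number of the Laurent polynomial `f(A) = V(A⁻⁴)` -/
noncomputable def twist (f : ℤ[T;T⁻¹]) (k : ℕ) : ℕ :=
  (f.coeff (loExp f + 4 * k)).natAbs + (f.coeff (hiExp f - 4 * k)).natAbs

lemma fPoly_coeff {P : Type} (D : Diagram P) (e : ℤ) :
    (D.fPoly.coeff e).natAbs = (D.bracket.coeff (e + 3 * D.writhe)).natAbs := by
  unfold Diagram.fPoly
  have h : ∀ f : ℤ[T;T⁻¹], (T (-3 * D.writhe) * f).coeff e = f.coeff (e + 3 * D.writhe) := by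
    intro f
    rw [coeff_T_mul]
    congr 1
    ring
  split
  · rw [one_mul, h]
  · have e1 : (-1 : ℤ[T;T⁻¹]) * T (-3 * D.writhe) * D.bracket =
        -(T (-3 * D.writhe) * D.bracket) := by ring
    rw [e1, AddMonoidAlgebra.coeff_neg, Finsupp.neg_apply, Int.natAbs_neg, h]

theorem twist_eq (n M K : ℕ) (hn : 0 < n) (h0 : acoef n 0 (n * M) 0 ≠ 0)
    (h1 : acoef n 1 (n * M) 0 ≠ 0) :
    twist (diagram (braidClosure (n + 1)) (weave n M)).fPoly K =
      (acoef n 0 (n * M) K).natAbs + (acoef n 1 (n * M) K).natAbs := by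
  set D := diagram (braidClosure (n + 1)) (weave n M) with hD
  have key : ∀ e, (D.fPoly.coeff e ≠ 0 ↔ D.bracket.coeff (e + 3 * D.writhe) ≠ 0) := by
    intro e
    rw [← Int.natAbs_ne_zero, fPoly_coeff, Int.natAbs_ne_zero]
  have eps0 : eps 0 = -1 := by unfold eps; norm_num
  have eps1 : eps 1 = 1 := by unfold eps; norm_num
  have hlo : IsLeast {e : ℤ | D.fPoly.coeff e ≠ 0} (-(top n 0 (n * M)) - 3 * D.writhe) := by
    constructor
    · rw [Set.mem_ofPred_eq, key]
      have h2 := bracket_coeff_top n 0 M 0 hn (by norm_num)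
      rw [eps0] at h2
      have e1 : -(top n 0 (n * M)) - 3 * D.writhe + 3 * D.writhe =
          -1 * (top n 0 (n * M) - 4 * ((0 : ℕ) : ℤ)) := by push_cast; ring
      rw [e1, h2]
      exact h0
    · intro e he
      rw [Set.mem_ofPred_eq, key] at he
      have e1 : e + 3 * D.writhe = eps 0 * (-(e + 3 * D.writhe)) := by rw [eps0]; ring
      rw [e1] at he
      obtain ⟨K', hK⟩ := bracket_coeff_ne n 0 M hn (by norm_num) he
      linarith [Nat.cast_nonneg (α := ℤ) K']
  have hhi : IsGreatest {e : ℤ | D.fPoly.coeff e ≠ 0} (top n 1 (n * M) - 3 * D.writhe) := by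
    constructor
    · rw [Set.mem_ofPred_eq, key]
      have h2 := bracket_coeff_top n 1 M 0 hn (by norm_num)
      rw [eps1] at h2
      have e1 : top n 1 (n * M) - 3 * D.writhe + 3 * D.writhe =
          1 * (top n 1 (n * M) - 4 * ((0 : ℕ) : ℤ)) := by push_cast; ring
      rw [e1, h2]
      exact h1
    · intro e he
      rw [Set.mem_ofPred_eq, key] at he
      have e1 : e + 3 * D.writhe = eps 1 * (e + 3 * D.writhe) := by rw [eps1]; ring
      rw [e1] at he
      obtain ⟨K', hK⟩ := bracket_coeff_ne n 1 M hn (by norm_num) he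
      linarith [Nat.cast_nonneg (α := ℤ) K']
  unfold twist loExp hiExp
  rw [hlo.csInf_eq, hhi.csSup_eq, fPoly_coeff, fPoly_coeff]
  have e1 : -(top n 0 (n * M)) - 3 * D.writhe + 4 * (K : ℤ) + 3 * D.writhe =
      eps 0 * (top n 0 (n * M) - 4 * (K : ℤ)) := by rw [eps0]; ring
  have e2 : top n 1 (n * M) - 3 * D.writhe - 4 * (K : ℤ) + 3 * D.writhe =
      eps 1 * (top n 1 (n * M) - 4 * (K : ℤ)) := by rw [eps1]; ring
  rw [e1, e2, bracket_coeff_top n 0 M K hn (by norm_num),
    bracket_coeff_top n 1 M K hn (by norm_num)]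

end Pool.Agent.H207.WT
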