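import Pool.Agent.H207.WT.Coef

/-!
# Counting the states of small depth
-/

set_option autoImplicit false

namespace Pool.Agent.H207.WT

open Finset

variable {n p L : ℕ}

/-- a neighbourhood of the place `x` -/
def nb (n L x : ℕ) : Finset ℕ :=
  (range (n + 1)).image (fun j => (x + j) % L) ∪ (range (n + 1)).image (fun j => (x + (L - j)) % L)

lemma card_nb (n L x : ℕ) : (nb n L x).card ≤ 2 * (n + 1) := by
  unfold nb
  refine (card_union_le _ _).trans ?_
  have h1 : ((range (n + 1)).image (fun j => (x + j) % L)).card ≤ n + 1 :=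
    card_image_le.trans (by rw [card_range])
  have h2 : ((range (n + 1)).image (fun j => (x + (L - j)) % L)).card ≤ n + 1 :=
    card_image_le.trans (by rw [card_range])
  omega

lemma mem_nb (hL : n ≤ L) {x y : ℕ} (hy : y < L) (h : Close n L x y) : y ∈ nb n L x := by
  unfold nb
  obtain ⟨j, hj, h | h⟩ := h
  · exact mem_union_left _ (mem_image.2 ⟨j, mem_range.2 (by omega), h⟩)
  · refine mem_union_right _ (mem_image.2 ⟨j, mem_range.2 (by omega), ?_⟩)
    rw [← h, Nat.mod_add_mod]
    have e : y + j + (L - j) = y + L := by omega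
    rw [e, Nat.add_mod_right, Nat.mod_eq_of_lt hy]

/-- neighbourhoods of a set of places -/
def nbs (n L : ℕ) (T : Finset ℕ) : Finset ℕ := T.biUnion (nb n L)

lemma card_nbs (n L : ℕ) (T : Finset ℕ) : (nbs n L T).card ≤ T.card * (2 * (n + 1)) :=
  card_biUnion_le_card_mul _ _ _ (fun x _ => card_nb n L x)

lemma card_nbs2 (n L : ℕ) (T : Finset ℕ) :
    (nbs n L (nbs n L T)).card ≤ (2 * (n + 1)) ^ 2 * T.card := by
  refine (card_nbs n L _).trans ?_
  calc (nbs n L T).card * (2 * (n + 1)) ≤ (T.card * (2 * (n + 1))) * (2 * (n + 1)) :=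
        Nat.mul_le_mul_right _ (card_nbs n L T)
    _ = (2 * (n + 1)) ^ 2 * T.card := by ring

/-- the set `S` has two different close places -/
def NonSpread (n L : ℕ) (S : Finset ℕ) : Prop := ∃ x ∈ S, ∃ y ∈ S, x ≠ y ∧ Close n L x y

lemma hh_mono (hn : 0 < n) {T S : Finset ℕ} (hTS : T ⊆ S) (hS : ∀ x ∈ S, x < L) :
    hh n p L T ≤ hh n p L S := by
  have h1 := hh_eq (p := p) hn hS
  have h2 := hh_eq (p := p) hn (fun x hx => hS x (hTS hx))
  have h3 := mono_le (p := p) hn hTS hS
  omega

theorem hh_le_card (hn : 0 < n) {S : Finset ℕ} (hS : ∀ x ∈ S, x < L) :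
    hh n p L S ≤ S.card := by
  classical
  have h1 := hh_eq (p := p) hn hS
  suffices h : Lam n p L ∅ ≤ Lam n p L S + S.card by omega
  clear h1
  induction S using Finset.induction_on with
  | empty => simp
  | insert x S hx ih =>
    have h2 := ih (fun y hy => hS y (mem_insert_of_mem hy))
    have h3 := Lam_flip (n := n) (p := p) (L := L) hn (hS x (mem_insert_self x S)) hx
    rw [card_insert_of_notMem hx]
    omega

theorem spread_Lam (hn : 2 ≤ n) (hL : n ∣ L) (hL2 : 4 * n ≤ L) (hp : p < 2) {S : Finset ℕ}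
    (hS : ∀ x ∈ S, x < L) (h : ¬ NonSpread n L S) : Lam n p L S + S.card = Lam n p L ∅ := by
  have h1 := add_spread hn hL (by omega) hp ∅ S hS
    (fun x hx y hy hxy hc => h ⟨x, hx, y, hy, hxy, hc⟩) (by simp)
  rw [union_empty] at h1
  omega

theorem spread_hh (hn : 2 ≤ n) (hL : n ∣ L) (hL2 : 4 * n ≤ L) (hp : p < 2) {S : Finset ℕ}
    (hS : ∀ x ∈ S, x < L) (h : ¬ NonSpread n L S) : hh n p L S = S.card := by
  have h1 := spread_Lam hn hL hL2 hp hS h
  have h2 := hh_eq (p := p) (by omega : 0 < n) hS
  omega

/-- a maximal spread subset -/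
lemma exists_max (S : Finset ℕ) (hS : ∀ x ∈ S, x < L) : ∃ T ⊆ S, ¬ NonSpread n L T ∧
    ∀ x ∈ S, ∃ y ∈ T, Close n L y x := by
  classical
  induction S using Finset.induction_on with
  | empty => exact ⟨∅, Subset.rfl, by simp [NonSpread], by simp⟩
  | insert x S hx ih =>
    obtain ⟨T, hTS, hT, hmax⟩ := ih (fun y hy => hS y (mem_insert_of_mem hy))
    by_cases h : ∃ y ∈ T, Close n L y x
    · refine ⟨T, hTS.trans (subset_insert _ _), hT, ?_⟩
      intro z hz
      rcases mem_insert.1 hz with rfl | hz
      · exact h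
      · exact hmax z hz
    · refine ⟨insert x T, insert_subset_insert _ hTS, ?_, ?_⟩
      · rintro ⟨a, ha, b, hb, hab, hc⟩
        rcases mem_insert.1 ha with rfl | ha2
        · rcases mem_insert.1 hb with rfl | hb2
          · exact hab rfl
          · exact h ⟨b, hb2, hc.symm⟩
        · rcases mem_insert.1 hb with rfl | hb2
          · exact h ⟨a, ha2, hc⟩
          · exact hT ⟨a, ha2, b, hb2, hab, hc⟩
      · intro z hz
        rcases mem_insert.1 hz with rfl | hz
        · exact ⟨z, mem_insert_self _ _, close_self (hS z (mem_insert_self _ _))⟩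
        · obtain ⟨y, hy, hc⟩ := hmax z hz
          exact ⟨y, mem_insert_of_mem hy, hc⟩

/-- a non-spread set of depth `h` lies near a set with at most `h - 1` places -/
theorem exists_core (hn : 2 ≤ n) (hL : n ∣ L) (hL2 : 4 * n ≤ L) (hp : p < 2) {S : Finset ℕ}
    (hS : ∀ x ∈ S, x < L) (h : NonSpread n L S) :
    ∃ T ⊆ S, T.card + 1 ≤ hh n p L S ∧ S ⊆ nbs n L (nbs n L T) := by
  classical
  obtain ⟨e, he, f, hf, hef, hc⟩ := h
  set R := S.filter (fun x => ¬ Close n L x e ∧ ¬ Close n L x f) with hR
  have hRS : R ⊆ S := filter_subset _ _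
  obtain ⟨T, hTR, hT, hmax⟩ := exists_max (n := n) (L := L) R (fun x hx => hS x (hRS hx))
  have heT : e ∉ T := by
    intro h
    have h1 := (mem_filter.1 (hTR h)).2.1
    exact h1 (close_self (hS e he))
  have hfT : f ∉ T := by
    intro h
    have h1 := (mem_filter.1 (hTR h)).2.2
    exact h1 (close_self (hS f hf))
  refine ⟨insert e T, insert_subset he (hTR.trans hRS), ?_, ?_⟩
  · have h1 : T ∪ {e, f} ⊆ S := by
      apply union_subset (hTR.trans hRS)
      intro x hx
      rcases mem_insert.1 hx with rfl | hx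
      · exact he
      · rw [mem_singleton] at hx
        rw [hx]
        exact hf
    have h2 := hh_mono (p := p) (by omega : 0 < n) h1 hS
    have h3 := add_spread hn hL (by omega) hp {e, f} T (fun x hx => hS x (hRS (hTR hx)))
      (fun x hx y hy hxy hc => hT ⟨x, hx, y, hy, hxy, hc⟩) (by
        intro x hx y hy
        have h4 := (mem_filter.1 (hTR hx)).2
        rcases mem_insert.1 hy with rfl | hy
        · exact h4.1
        · rw [mem_singleton] at hy
          rw [hy]
          exact h4.2)
    have h5 := pair hn hL hL2 hp (hS e he) (hS f hf) hef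
    have h6 := hh_eq (n := n) (p := p) (L := L) (by omega) (fun x hx => hS x (h1 hx))
    have h7 : (T ∪ {e, f}).card = T.card + 2 := by
      rw [card_union_of_disjoint, card_pair hef]
      rw [disjoint_right]
      intro x hx
      rcases mem_insert.1 hx with rfl | hx
      · exact heT
      · rw [mem_singleton] at hx
        rw [hx]
        exact hfT
    rw [card_insert_of_notMem heT]
    omega
  · intro x hx
    have hnL : n ≤ L := by omega
    have hin : ∀ z ∈ insert e T, z ∈ nbs n L (insert e T) := by
      intro z hz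
      have hzL : z < L := by
        rcases mem_insert.1 hz with rfl | hz
        · exact hS _ he
        · exact hS z (hRS (hTR hz))
      exact mem_biUnion.2 ⟨z, hz, mem_nb hnL hzL (close_self hzL)⟩
    by_cases h1 : Close n L x e
    · exact mem_biUnion.2 ⟨e, hin e (mem_insert_self _ _), mem_nb hnL (hS x hx) h1.symm⟩
    · by_cases h2 : Close n L x f
      · refine mem_biUnion.2 ⟨f, ?_, mem_nb hnL (hS x hx) h2.symm⟩
        exact mem_biUnion.2 ⟨e, mem_insert_self _ _, mem_nb hnL (hS f hf) hc⟩
      · have h3 : x ∈ R := mem_filter.2 ⟨hx, h1, h2⟩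
        obtain ⟨y, hy, hyc⟩ := hmax x h3
        exact mem_biUnion.2 ⟨y, hin y (mem_insert_of_mem hy), mem_nb hnL (hS x hx) hyc⟩

/-- the weighted number of non-spread sets of depth at most `K` -/
theorem count_nonspread (hn : 2 ≤ n) (hL : n ∣ L) (hL2 : 4 * n ≤ L) (hp : p < 2) (K B : ℕ)
    (hB : L ≤ B) [DecidablePred (NonSpread n L)] :
    ∑ S ∈ ((range L).powerset.filter (fun S => NonSpread n L S)).filter
      (fun S => hh n p L S ≤ K), B ^ (K - hh n p L S) ≤
      K * ((2 ^ ((2 * (n + 1)) ^ 2)) ^ K * B ^ (K - 1)) := by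
  classical
  set 𝒩 := ((range L).powerset.filter (fun S => NonSpread n L S)).filter
      (fun S => hh n p L S ≤ K) with h𝒩
  have hB1 : 1 ≤ B := by omega
  have hcore : ∀ S : Finset ℕ, ∃ T : Finset ℕ, S ∈ 𝒩 →
      (T ⊆ S ∧ T.card + 1 ≤ hh n p L S ∧ S ⊆ nbs n L (nbs n L T)) := by
    intro S
    by_cases hS : S ∈ 𝒩
    · rw [h𝒩, mem_filter, mem_filter, mem_powerset] at hS
      obtain ⟨T, h1, h2, h3⟩ := exists_core (p := p) hn hL hL2 hp
        (fun x hx => mem_range.1 (hS.1.1 hx)) hS.1.2
      exact ⟨T, fun _ => ⟨h1, h2, h3⟩⟩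
    · exact ⟨∅, fun h => absurd h hS⟩
  choose core hc using hcore
  have hmap : ∀ S ∈ 𝒩, (core S).card ∈ range K := by
    intro S hS
    have h1 := (hc S hS).2.1
    have h2 : hh n p L S ≤ K := (mem_filter.1 hS).2
    rw [mem_range]
    omega
  rw [← sum_fiberwise_of_maps_to hmap]
  calc ∑ j ∈ range K, ∑ S ∈ 𝒩 with (core S).card = j, B ^ (K - hh n p L S)
      ≤ ∑ j ∈ range K, ((2 ^ ((2 * (n + 1)) ^ 2)) ^ K * B ^ (K - 1)) := by
        apply sum_le_sum
        intro j hj
        rw [mem_range] at hj
        have h1 : ∀ S ∈ 𝒩.filter (fun S => (core S).card = j),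
            B ^ (K - hh n p L S) ≤ B ^ (K - 1 - j) := by
          intro S hS
          rw [mem_filter] at hS
          have h2 := (hc S hS.1).2.1
          exact Nat.pow_le_pow_right hB1 (by omega)
        refine (sum_le_card_nsmul _ _ _ h1).trans ?_
        rw [smul_eq_mul]
        have h3 : 𝒩.filter (fun S => (core S).card = j) ⊆
            (powersetCard j (range L)).biUnion (fun T => (nbs n L (nbs n L T)).powerset) := by
          intro S hS
          rw [mem_filter] at hS
          obtain ⟨h4, h5, h6⟩ := hc S hS.1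
          rw [mem_biUnion]
          refine ⟨core S, ?_, mem_powerset.2 h6⟩
          rw [mem_powersetCard]
          refine ⟨h4.trans ?_, hS.2⟩
          have h7 := hS.1
          rw [h𝒩, mem_filter, mem_filter, mem_powerset] at h7
          exact h7.1.1
        have h4 : (𝒩.filter (fun S => (core S).card = j)).card ≤
            L.choose j * 2 ^ ((2 * (n + 1)) ^ 2 * j) := by
          refine (card_le_card h3).trans ?_
          have h5 := card_biUnion_le_card_mul (powersetCard j (range L))
            (fun T => (nbs n L (nbs n L T)).powerset) (2 ^ ((2 * (n + 1)) ^ 2 * j)) (by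
              intro T hT
              rw [mem_powersetCard] at hT
              rw [card_powerset]
              apply Nat.pow_le_pow_right (by norm_num)
              rw [← hT.2]
              exact card_nbs2 n L T)
          rw [card_powersetCard, card_range] at h5
          exact h5
        calc (𝒩.filter (fun S => (core S).card = j)).card * B ^ (K - 1 - j)
            ≤ (L.choose j * 2 ^ ((2 * (n + 1)) ^ 2 * j)) * B ^ (K - 1 - j) :=
              Nat.mul_le_mul_right _ h4
          _ ≤ (B ^ j * 2 ^ ((2 * (n + 1)) ^ 2 * K)) * B ^ (K - 1 - j) := by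
              apply Nat.mul_le_mul_right
              apply Nat.mul_le_mul
              · exact (Nat.choose_le_pow L j).trans (Nat.pow_le_pow_left hB j)
              · exact Nat.pow_le_pow_right (by norm_num) (Nat.mul_le_mul_left _ (by omega))
          _ = (2 ^ ((2 * (n + 1)) ^ 2)) ^ K * (B ^ j * B ^ (K - 1 - j)) := by
              rw [← pow_mul]
              ring
          _ = (2 ^ ((2 * (n + 1)) ^ 2)) ^ K * B ^ (K - 1) := by
              rw [← pow_add]
              congr 2
              omega
    _ = K * ((2 ^ ((2 * (n + 1)) ^ 2)) ^ K * B ^ (K - 1)) := by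
        rw [sum_const, card_range, smul_eq_mul]

end Pool.Agent.H207.WT
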