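import Pool.Agent.TH561.PB.State

/-!
# Inserting a generator into a word changes the number of closed curves by one
-/

set_option autoImplicit false

namespace Pool.Agent.H207.WT

open Pool.Agent.TH561 Pool.Agent.H891R2.Jones

variable {m : ℕ}

/-- all letters are generators -/
def Ok (m : ℕ) (L : List ℕ) : Prop := ∀ i ∈ L, i + 1 < m

lemma Ok.append {L L' : List ℕ} (h : Ok m L) (h' : Ok m L') : Ok m (L ++ L') := by
  intro i hi
  rcases List.mem_append.1 hi with hi | hi
  · exact h i hi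
  · exact h' i hi

lemma ok_nil : Ok m [] := by
  intro i hi
  simp at hi

lemma ok_single {i : ℕ} (h : i + 1 < m) : Ok m [i] := by
  intro j hj
  rw [List.mem_singleton] at hj
  omega

/-- trace of a word, two colours -/
noncomputable def tr (m : ℕ) (L : List ℕ) : ℂ := Matrix.trace (WP (KK m 2) L)

lemma tr_lam {L : List ℕ} (h : Ok m L) : tr m L = 2 ^ lam m L := by
  have := trace_lam L h (N := 2) (by norm_num)
  unfold tr
  rw [this]
  norm_num

lemma tr_cyc (L L' : List ℕ) : tr m (L ++ L') = tr m (L' ++ L) := by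
  unfold tr
  rw [WP_append, WP_append, Matrix.trace_mul_comm]

lemma pow_inj {x y : ℕ} (h : (2 : ℂ) ^ x = 2 ^ y) : x = y := by
  have h2 : (2 : ℕ) ^ x = 2 ^ y := by exact_mod_cast h
  exact Nat.pow_right_injective le_rfl h2

lemma lam_cyc {L L' : List ℕ} (h : Ok m L) (h' : Ok m L') : lam m (L ++ L') = lam m (L' ++ L) := by
  apply pow_inj
  rw [← tr_lam (h.append h'), ← tr_lam (h'.append h), tr_cyc]

lemma markov2 (r : ℕ) (L : List ℕ) (hr : r + 1 < m) (hL : ∀ i ∈ L, i < r) :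
    2 * tr m (L ++ [r]) = tr m L := by
  have := markov (m := m) (N := 2) (by norm_num) r L hr hL
  unfold tr
  rw [WP_append]
  have h2 : WP (KK m 2) [r] = KK m 2 r := by simp [WP]
  rw [h2]
  exact_mod_cast this

/-- the flip relation -/
def Fl (m : ℕ) (X : List ℕ) (i : ℕ) : Prop :=
  lam m (X ++ [i]) = lam m X + 1 ∨ lam m X = lam m (X ++ [i]) + 1

lemma tl (m : ℕ) : IsTL m (2 : ℂ) (KK m 2) := by
  have := isTL_KK m 2
  exact_mod_cast this

/-- words in the generators up to `r` -/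
lemma pc (r : ℕ) (hr : r + 1 < m) (L : List ℕ) (hL : ∀ i ∈ L, i ≤ r) :
    (∀ i ∈ L, i < r) ∨ ∃ (b : ℕ) (L1 L2 : List ℕ), (∀ i ∈ L1, i < r) ∧ (∀ i ∈ L2, i < r) ∧
      WP (KK m 2) L = (2 : ℂ) ^ b • (WP (KK m 2) L1 * KK m 2 r * WP (KK m 2) L2) := by
  have h := propC (ι := Unit) (M := m) (d := fun _ => (2 : ℂ)) (e := fun _ => KK m 2)
    (fun _ => tl m) r hr L hL
  rcases h with h | ⟨b, L1, L2, h1, h2, _, h3⟩
  · exact Or.inl h
  · exact Or.inr ⟨b, L1, L2, h1, h2, h3 ()⟩

lemma comm_far (r : ℕ) (hr : r + 1 < m) (L : List ℕ) (hL : ∀ i ∈ L, i + 1 < r) :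
    KK m 2 r * WP (KK m 2) L = WP (KK m 2) L * KK m 2 r := by
  have h := comm_WP (ι := Unit) (M := m) (d := fun _ => (2 : ℂ)) (e := fun _ => KK m 2)
    (fun _ => tl m) r hr L hL ()
  exact h.eq

lemma tr_repl {X Y : List ℕ} {c : ℂ} (h : WP (KK m 2) X = c • WP (KK m 2) Y) (A B : List ℕ) :
    tr m (A ++ X ++ B) = c * tr m (A ++ Y ++ B) := by
  unfold tr
  rw [WP_append, WP_append, WP_append, WP_append, h, mul_smul_comm, smul_mul_assoc,
    Matrix.trace_smul, smul_eq_mul]

lemma tr_repl1 {X Y : List ℕ} (h : WP (KK m 2) X = WP (KK m 2) Y) (A B : List ℕ) :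
    tr m (A ++ X ++ B) = tr m (A ++ Y ++ B) := by
  unfold tr
  rw [WP_append, WP_append, WP_append, WP_append, h]

lemma w_single (i : ℕ) : WP (KK m 2) [i] = KK m 2 i := by simp [WP]

lemma w_sq {i : ℕ} (h : i + 1 < m) : WP (KK m 2) [i, i] = (2 : ℂ) • WP (KK m 2) [i] := by
  have e : WP (KK m 2) [i, i] = KK m 2 i * KK m 2 i := by simp [WP]
  rw [e, (tl m).sq i h, w_single]

lemma w_down {i : ℕ} (h : i + 2 < m) : WP (KK m 2) [i + 1, i, i + 1] = WP (KK m 2) [i + 1] := by
  have e : WP (KK m 2) [i + 1, i, i + 1] = KK m 2 (i + 1) * KK m 2 i * KK m 2 (i + 1) := by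
    simp [WP, mul_assoc]
  rw [e, (tl m).down i h, w_single]

lemma w_up {i : ℕ} (h : i + 2 < m) : WP (KK m 2) [i, i + 1, i] = WP (KK m 2) [i] := by
  have e : WP (KK m 2) [i, i + 1, i] = KK m 2 i * KK m 2 (i + 1) * KK m 2 i := by
    simp [WP, mul_assoc]
  rw [e, (tl m).up i h, w_single]

lemma w_far {i j : ℕ} (hi : i + 1 < m) (hj : j + 1 < m) (h : i + 2 ≤ j ∨ j + 2 ≤ i) :
    KK m 2 i * KK m 2 j = KK m 2 j * KK m 2 i := by
  rcases h with h | h
  · exact (tl m).far i j hj h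
  · exact ((tl m).far j i hi h).symm

/-- a generator commutes with a word of distant generators -/
lemma w_comm {i : ℕ} (hi : i + 1 < m) (C : List ℕ) (hC : Ok m C)
    (h : ∀ j ∈ C, i + 2 ≤ j ∨ j + 2 ≤ i) : WP (KK m 2) (i :: C) = WP (KK m 2) (C ++ [i]) := by
  induction C with
  | nil => rfl
  | cons j C ih =>
    have h1 := ih (fun k hk => hC k (List.mem_cons_of_mem _ hk))
      (fun k hk => h k (List.mem_cons_of_mem _ hk))
    rw [WP_cons, WP_cons, ← mul_assoc, w_far hi (hC j List.mem_cons_self) (h j List.mem_cons_self),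
      mul_assoc, ← WP_cons, h1, List.cons_append, WP_cons]

lemma pcw (r : ℕ) (hr : r + 1 < m) (L : List ℕ) (hL : ∀ i ∈ L, i ≤ r) :
    (∀ i ∈ L, i < r) ∨ ∃ (b : ℕ) (L1 L2 : List ℕ), (∀ i ∈ L1, i < r) ∧ (∀ i ∈ L2, i < r) ∧
      WP (KK m 2) L = (2 : ℂ) ^ b • WP (KK m 2) (L1 ++ [r] ++ L2) := by
  rcases pc r hr L hL with h | ⟨b, L1, L2, h1, h2, h3⟩
  · exact Or.inl h
  · refine Or.inr ⟨b, L1, L2, h1, h2, ?_⟩
    rw [h3, WP_append, WP_append, w_single]

lemma lt_app {r : ℕ} {L L' : List ℕ} (h : ∀ i ∈ L, i < r) (h' : ∀ i ∈ L', i < r) :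
    ∀ i ∈ L ++ L', i < r := by
  intro i hi
  rcases List.mem_append.1 hi with hi | hi
  · exact h i hi
  · exact h' i hi

lemma ok_lt {r : ℕ} (hr : r ≤ m - 1) {L : List ℕ} (h : ∀ i ∈ L, i < r) : Ok m L := by
  intro i hi
  have := h i hi
  omega

lemma red_b {r b : ℕ} (hr : r + 1 < m) {X L1 L2 Z : List ℕ} (h1 : ∀ i ∈ L1, i < r)
    (h2 : ∀ i ∈ L2, i < r) (hZ : ∀ i ∈ Z, i < r) (hX : Ok m X)
    (h : WP (KK m 2) X = (2 : ℂ) ^ b • WP (KK m 2) (L1 ++ [r] ++ L2)) :
    lam m (X ++ Z) + 1 = b + lam m (L2 ++ Z ++ L1) := by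
  have h1ok : Ok m L1 := ok_lt (by omega) h1
  have h2ok : Ok m L2 := ok_lt (by omega) h2
  have hZok : Ok m Z := ok_lt (by omega) hZ
  apply pow_inj
  rw [pow_succ, pow_add, ← tr_lam (hX.append hZok), ← tr_lam ((h2ok.append hZok).append h1ok),
    ← markov2 r (L2 ++ Z ++ L1) hr (lt_app (lt_app h2 hZ) h1)]
  have e1 := tr_repl h [] Z
  rw [List.nil_append, List.nil_append] at e1
  have e2 : tr m (L1 ++ [r] ++ L2 ++ Z) = tr m (L2 ++ Z ++ L1 ++ [r]) := by
    have := tr_cyc (m := m) (L1 ++ [r]) (L2 ++ Z)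
    rw [← List.append_assoc, ← List.append_assoc] at this
    exact this
  rw [e1, e2]
  ring

lemma flip_lt (r : ℕ) (hr : r + 1 < m)
    (ih : ∀ X : List ℕ, (∀ k ∈ X, k < r) → ∀ i < r, Fl m X i)
    {b : ℕ} {X L1 L2 : List ℕ} (h1 : ∀ i ∈ L1, i < r) (h2 : ∀ i ∈ L2, i < r) (hX : Ok m X)
    (h : WP (KK m 2) X = (2 : ℂ) ^ b • WP (KK m 2) (L1 ++ [r] ++ L2)) (i : ℕ) (hi : i < r) :
    Fl m X i := by
  have h1ok : Ok m L1 := ok_lt (by omega) h1
  have h2ok : Ok m L2 := ok_lt (by omega) h2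
  have hiok : Ok m [i] := ok_single (by omega)
  have e0 := red_b hr h1 h2 (Z := []) (by simp) hX h
  have e1 := red_b hr h1 h2 (Z := [i]) (by simpa using hi) hX h
  rw [List.append_nil, List.append_nil] at e0
  have e3 : lam m (L2 ++ [i] ++ L1) = lam m ((L1 ++ L2) ++ [i]) := by
    rw [lam_cyc (h2ok.append hiok) h1ok, List.append_assoc]
  have e4 : lam m (L2 ++ L1) = lam m (L1 ++ L2) := lam_cyc h2ok h1ok
  have := ih (L1 ++ L2) (lt_app h1 h2) i hi
  unfold Fl at this ⊢
  omega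

/-- the case of two adjacent occurrences up to distant generators -/
lemma flip_comm {b : ℕ} {X L1 L2 : List ℕ} {i : ℕ} (hi : i + 1 < m) (hX : Ok m X) (h2 : Ok m L2)
    (hf : ∀ j ∈ L2, i + 2 ≤ j ∨ j + 2 ≤ i)
    (h : WP (KK m 2) X = (2 : ℂ) ^ b • WP (KK m 2) (L1 ++ [i] ++ L2)) :
    lam m (X ++ [i]) = lam m X + 1 := by
  apply pow_inj
  rw [pow_succ, ← tr_lam (hX.append (ok_single hi)), ← tr_lam hX]
  have e0 := tr_repl h [] []
  have e1 := tr_repl h [] [i]
  rw [List.nil_append, List.append_nil, List.nil_append, List.append_nil] at e0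
  rw [List.nil_append, List.nil_append] at e1
  have hc := w_comm hi L2 h2 hf
  have e2 : tr m (L1 ++ [i] ++ L2 ++ [i]) = 2 * tr m (L1 ++ [i] ++ L2) := by
    have e3 : L1 ++ [i] ++ L2 ++ [i] = L1 ++ [i] ++ (L2 ++ [i]) ++ [] := by simp
    rw [e3, ← tr_repl1 hc (L1 ++ [i]) []]
    have e4 : L1 ++ [i] ++ (i :: L2) ++ [] = L1 ++ [i, i] ++ L2 := by simp
    rw [e4, tr_repl (w_sq hi) L1 L2]
  rw [e1, e0, e2]
  ring

lemma flip_eq (t : ℕ) (hr : t + 1 + 1 < m)
    (ih : ∀ X : List ℕ, (∀ k ∈ X, k < t + 1) → ∀ i < t + 1, Fl m X i)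
    {b : ℕ} {X L1 L2 : List ℕ} (h1 : ∀ i ∈ L1, i < t + 1) (h2 : ∀ i ∈ L2, i < t + 1) (hX : Ok m X)
    (h : WP (KK m 2) X = (2 : ℂ) ^ b • WP (KK m 2) (L1 ++ [t + 1] ++ L2)) : Fl m X (t + 1) := by
  have h1ok : Ok m L1 := ok_lt (by omega) h1
  have h2ok : Ok m L2 := ok_lt (by omega) h2
  rcases pcw (m := m) t (by omega) L2 (fun k hk => by have := h2 k hk; omega) with hC | ⟨b', P, Q, hP, hQ, hD⟩
  · left
    exact flip_comm (L2 := L2) hr hX h2ok (fun j hj => by have := hC j hj; omega) h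
  · have hPok : Ok m P := ok_lt (by omega) hP
    have hQok : Ok m Q := ok_lt (by omega) hQ
    have htok : Ok m [t] := ok_single (by omega)
    have hP' : ∀ k ∈ P, k < t + 1 := fun k hk => by have := hP k hk; omega
    have hQ' : ∀ k ∈ Q, k < t + 1 := fun k hk => by have := hQ k hk; omega
    have hcP := w_comm hr P hPok (fun j hj => by have := hP j hj; omega)
    have hcQ := w_comm hr Q hQok (fun j hj => by have := hQ j hj; omega)
    have hYl : ∀ k ∈ Q ++ L1 ++ P, k < t + 1 := lt_app (lt_app hQ' h1) hP'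
    have e0 := red_b hr h1 h2 (Z := []) (by simp) hX h
    rw [List.append_nil, List.append_nil] at e0
    have e1 : lam m (L2 ++ L1) = b' + lam m ((Q ++ L1 ++ P) ++ [t]) := by
      apply pow_inj
      rw [pow_add, ← tr_lam (h2ok.append h1ok),
        ← tr_lam (((hQok.append h1ok).append hPok).append htok)]
      have e2 := tr_repl hD [] L1
      rw [List.nil_append, List.nil_append] at e2
      rw [e2]
      have e3 : P ++ [t] ++ Q ++ L1 = (P ++ [t]) ++ (Q ++ L1) := by simp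
      have e4 : Q ++ L1 ++ P ++ [t] = (Q ++ L1) ++ (P ++ [t]) := by simp
      rw [e3, tr_cyc, e4]
    have e2 : lam m (X ++ [t+1]) + 1 = b + b' + lam m (Q ++ L1 ++ P) := by
      apply pow_inj
      rw [pow_succ, pow_add, pow_add, ← tr_lam (hX.append (ok_single hr)),
        ← tr_lam ((hQok.append h1ok).append hPok), ← markov2 (t+1) _ hr hYl]
      have e5 := tr_repl h [] [t+1]
      rw [List.nil_append, List.nil_append] at e5
      have e6 := tr_repl hD (L1 ++ [t+1]) [t+1]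
      have e7 : tr m (L1 ++ [t+1] ++ (P ++ [t] ++ Q) ++ [t+1]) = tr m (Q ++ L1 ++ P ++ [t+1]) := by
        have s1 : L1 ++ [t+1] ++ (P ++ [t] ++ Q) ++ [t+1] =
            L1 ++ ((t+1) :: P) ++ ([t] ++ Q ++ [t+1]) := by simp
        rw [s1, tr_repl1 hcP]
        have s2 : L1 ++ (P ++ [t+1]) ++ ([t] ++ Q ++ [t+1]) =
            (L1 ++ P ++ [t+1, t]) ++ (Q ++ [t+1]) ++ [] := by simp
        rw [s2, ← tr_repl1 hcQ]
        have s3 : L1 ++ P ++ [t+1, t] ++ ((t+1) :: Q) ++ [] = (L1 ++ P) ++ [t+1, t, t+1] ++ Q := by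
          simp
        rw [s3, tr_repl1 (w_down (by omega)), tr_cyc]
        simp
      rw [e5, e6, e7]
      ring
    have := ih (Q ++ L1 ++ P) hYl t (by omega)
    unfold Fl at this ⊢
    omega

lemma flip_aux : ∀ r : ℕ, r + 1 ≤ m → ∀ X : List ℕ, (∀ k ∈ X, k < r) → ∀ i < r, Fl m X i := by
  intro r
  induction r with
  | zero => intro _ X _ i hi; omega
  | succ r ih =>
    intro hr X hX i hi
    have hr' : r + 1 < m := by omega
    have hXok : Ok m X := ok_lt (by omega) hX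
    have hiok : Ok m [i] := ok_single (by omega)
    rcases pcw r hr' X (fun k hk => by have := hX k hk; omega) with hA | ⟨b, L1, L2, h1, h2, hB⟩
    · rcases Nat.lt_or_ge i r with hir | hir
      · exact ih (by omega) X hA i hir
      · have : i = r := by omega
        subst this
        right
        apply pow_inj
        rw [pow_succ, ← tr_lam hXok, ← tr_lam (hXok.append hiok), ← markov2 i X hr' hA]
        ring
    · rcases Nat.lt_or_ge i r with hir | hir
      · exact flip_lt r hr' (ih (by omega)) h1 h2 hXok hB i hir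
      · have : i = r := by omega
        subst this
        rcases Nat.eq_zero_or_pos i with hi0 | hi0
        · subst hi0
          left
          refine flip_comm (L2 := L2) hr' hXok (ok_lt (by omega) h2) (fun j hj => ?_) hB
          exact absurd (h2 j hj) (by omega)
        · obtain ⟨t, rfl⟩ : ∃ t, i = t + 1 := ⟨i - 1, by omega⟩
          exact flip_eq t hr' (ih (by omega)) h1 h2 hXok hB

/-- inserting a generator changes the number of closed curves by one -/
theorem flip {L L' : List ℕ} {i : ℕ} (h : Ok m L) (h' : Ok m L') (hi : i + 1 < m) :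
    lam m (L ++ i :: L') = lam m (L ++ L') + 1 ∨ lam m (L ++ L') = lam m (L ++ i :: L') + 1 := by
  have hx := flip_aux (m := m) (m - 1) (by omega) (L' ++ L) (by
    intro k hk
    rcases List.mem_append.1 hk with hk | hk
    · have := h' k hk; omega
    · have := h k hk; omega) i (by omega)
  have hio : Ok m [i] := ok_single hi
  have e1 : lam m (L ++ L') = lam m (L' ++ L) := lam_cyc h h'
  have e2 : lam m (L ++ i :: L') = lam m ((L' ++ L) ++ [i]) := by
    have e3 : L ++ i :: L' = (L ++ [i]) ++ L' := by simp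
    rw [e3, lam_cyc (h.append hio) h', List.append_assoc]
  unfold Fl at hx
  omega

lemma lam_nil (m : ℕ) : lam m [] = m := by
  have := ess_nil m
  unfold lam
  omega

lemma lam_ge : ∀ r : ℕ, r + 1 ≤ m → ∀ X : List ℕ, (∀ k ∈ X, k < r) → m ≤ lam m X + r := by
  intro r
  induction r with
  | zero =>
    intro _ X hX
    have e0 : X = [] := by
      rcases X with _ | ⟨k, X⟩
      · rfl
      · exact absurd (hX k List.mem_cons_self) (by omega)
    rw [e0, lam_nil]
    omega
  | succ r ih =>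
    intro hr X hX
    have hr' : r + 1 < m := by omega
    have hXok : Ok m X := ok_lt (by omega) hX
    rcases pcw r hr' X (fun k hk => by have := hX k hk; omega) with hA | ⟨b, L1, L2, h1, h2, hB⟩
    · have := ih (by omega) X hA
      omega
    · have e0 := red_b hr' h1 h2 (Z := []) (by simp) hXok hB
      rw [List.append_nil, List.append_nil] at e0
      have := ih (by omega) (L2 ++ L1) (lt_app h2 h1)
      omega

lemma lam_pos {X : List ℕ} (hm : 0 < m) (h : Ok m X) : 0 < lam m X := by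
  have := lam_ge (m := m) (m - 1) (by omega) X (fun k hk => by have := h k hk; omega)
  omega

end Pool.Agent.H207.WT
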