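import Pool.Agent.H207.WT.Count

/-!
# The main term of the coefficients
-/

set_option autoImplicit false

namespace Pool.Agent.H207.WT

open Finset

variable {n p L : ℕ}

/-- the contribution of a spread state with `j` flipped places -/
def ma (V K j : ℕ) : ℤ :=
  if j ≤ K then (-1) ^ (V - 1 - j) * (((V - 1 - j).choose (K - j) : ℕ) : ℤ) else 0

theorem acoef_sub (hn : 2 ≤ n) (hL : n ∣ L) (hL2 : 4 * n ≤ L) (hp : p < 2) (K : ℕ) :
    (acoef n p L K - ∑ S ∈ (range L).powerset, ma (Lam n p L ∅) K S.card).natAbs ≤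
      2 * (K * ((2 ^ ((2 * (n + 1)) ^ 2)) ^ K * (Lam n p L ∅ + L) ^ (K - 1))) := by
  classical
  set V := Lam n p L ∅ with hV
  set B := V + L with hB
  have hB1 : 1 ≤ B := by omega
  set a : Finset ℕ → ℤ := fun S => (-1) ^ (Lam n p L S - 1) *
    (if hh n p L S ≤ K then (((Lam n p L S - 1).choose (K - hh n p L S) : ℕ) : ℤ) else 0) with ha
  have h1 : acoef n p L K - ∑ S ∈ (range L).powerset, ma V K S.card =
      ∑ S ∈ (range L).powerset.filter (fun S => NonSpread n L S), (a S - ma V K S.card) := by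
    unfold acoef
    rw [← sum_sub_distrib, sum_filter]
    apply sum_congr rfl
    intro S hS
    have hS' : ∀ x ∈ S, x < L := fun x hx => mem_range.1 (mem_powerset.1 hS hx)
    by_cases h : NonSpread n L S
    · rw [if_pos h]
    · rw [if_neg h]
      have h2 := spread_hh hn hL hL2 hp hS' h
      have h3 := spread_Lam hn hL hL2 hp hS' h
      have h4 : Lam n p L S - 1 = V - 1 - S.card := by omega
      unfold ma
      rw [h2, h4]
      by_cases h5 : S.card ≤ K
      · rw [if_pos h5, if_pos h5, sub_self]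
      · rw [if_neg h5, if_neg h5, mul_zero, sub_self]
  have h2 : ∀ S ∈ (range L).powerset, (a S - ma V K S.card).natAbs ≤
      2 * (if hh n p L S ≤ K then B ^ (K - hh n p L S) else 0) := by
    intro S hS
    have hS' : ∀ x ∈ S, x < L := fun x hx => mem_range.1 (mem_powerset.1 hS hx)
    have hcard : S.card ≤ L := by
      have := card_le_card (mem_powerset.1 hS)
      rwa [card_range] at this
    have h3 := hh_eq (p := p) (by omega : 0 < n) hS'
    have h4 := hh_le_card (p := p) (by omega : 0 < n) hS'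
    have h5 := Lam_pos (p := p) (L := L) (by omega : 0 < n) S
    have h6 : (a S).natAbs ≤ (if hh n p L S ≤ K then B ^ (K - hh n p L S) else 0) := by
      rw [ha]
      simp only
      rw [Int.natAbs_mul, Int.natAbs_pow, Int.natAbs_neg, Int.natAbs_one, one_pow, one_mul]
      by_cases h : hh n p L S ≤ K
      · rw [if_pos h, if_pos h, Int.natAbs_natCast]
        refine (Nat.choose_le_pow _ _).trans (Nat.pow_le_pow_left ?_ _)
        omega
      · rw [if_neg h, if_neg h, Int.natAbs_zero]
    have h7 : (ma V K S.card).natAbs ≤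
        (if hh n p L S ≤ K then B ^ (K - hh n p L S) else 0) := by
      unfold ma
      by_cases h : S.card ≤ K
      · rw [if_pos h, if_pos (h4.trans h), Int.natAbs_mul, Int.natAbs_pow, Int.natAbs_neg,
          Int.natAbs_one, one_pow, one_mul, Int.natAbs_natCast]
        refine (Nat.choose_le_pow _ _).trans ?_
        refine (Nat.pow_le_pow_left (show V - 1 - S.card ≤ B by omega) _).trans ?_
        exact Nat.pow_le_pow_right hB1 (by omega)
      · rw [if_neg h, Int.natAbs_zero]
        exact Nat.zero_le _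
    refine (Int.natAbs_sub_le _ _).trans ?_
    omega
  rw [h1]
  refine (Int.natAbs_sum_le _ _).trans ?_
  refine (sum_le_sum (fun S hS => h2 S (mem_filter.1 hS).1)).trans ?_
  rw [← mul_sum, ← sum_filter]
  exact Nat.mul_le_mul_left _ (count_nonspread hn hL hL2 hp K B (by omega))

theorem sum_ma (V L K : ℕ) (hV : K < V) :
    (-1) ^ (V - 1) * ∑ S ∈ (range L).powerset, ma V K S.card =
      ∑ j ∈ range (K + 1), (-1) ^ j * ((L.choose j : ℕ) : ℤ) *
        (((V - 1 - j).choose (K - j) : ℕ) : ℤ) := by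
  rw [sum_powerset_apply_card (fun j => ma V K j), card_range]
  have h1 : ∑ j ∈ range (L + 1), L.choose j • ma V K j =
      ∑ j ∈ range (K + 1), L.choose j • ma V K j := by
    have e1 : ∑ j ∈ range (L + 1), L.choose j • ma V K j =
        ∑ j ∈ range (L + K + 1), L.choose j • ma V K j := by
      apply sum_subset (range_subset_range.2 (by omega))
      intro j _ hj
      rw [mem_range] at hj
      rw [Nat.choose_eq_zero_of_lt (by omega), zero_smul]
    have e2 : ∑ j ∈ range (K + 1), L.choose j • ma V K j =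
        ∑ j ∈ range (L + K + 1), L.choose j • ma V K j := by
      apply sum_subset (range_subset_range.2 (by omega))
      intro j _ hj
      rw [mem_range] at hj
      unfold ma
      rw [if_neg (by omega), smul_zero]
    rw [e1, e2]
  rw [h1, mul_sum]
  apply sum_congr rfl
  intro j hj
  rw [mem_range] at hj
  unfold ma
  rw [if_pos (by omega), nsmul_eq_mul]
  have e : (-1 : ℤ) ^ (V - 1) * (-1) ^ (V - 1 - j) = (-1) ^ j := by
    obtain ⟨i, hi⟩ : ∃ i, V - 1 = j + i := ⟨V - 1 - j, by omega⟩
    rw [hi, Nat.add_sub_cancel_left, pow_add, mul_assoc, ← mul_pow]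
    norm_num
  calc (-1 : ℤ) ^ (V - 1) * (((L.choose j : ℕ) : ℤ) * ((-1) ^ (V - 1 - j) *
        (((V - 1 - j).choose (K - j) : ℕ) : ℤ)))
      = ((-1 : ℤ) ^ (V - 1) * (-1) ^ (V - 1 - j)) * ((L.choose j : ℕ) : ℤ) *
        (((V - 1 - j).choose (K - j) : ℕ) : ℤ) := by ring
    _ = _ := by rw [e]

/-- the coefficient up to lower order terms -/
theorem acoef_main (hn : 2 ≤ n) (hL : n ∣ L) (hL2 : 4 * n ≤ L) (hp : p < 2) (K : ℕ)
    (hV : K < Lam n p L ∅) :
    ((-1) ^ (Lam n p L ∅ - 1) * acoef n p L K - ∑ j ∈ range (K + 1), (-1) ^ j *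
      ((L.choose j : ℕ) : ℤ) * (((Lam n p L ∅ - 1 - j).choose (K - j) : ℕ) : ℤ)).natAbs ≤
      2 * (K * ((2 ^ ((2 * (n + 1)) ^ 2)) ^ K * (Lam n p L ∅ + L) ^ (K - 1))) := by
  rw [← sum_ma _ _ _ hV, ← mul_sub, Int.natAbs_mul, Int.natAbs_pow, Int.natAbs_neg,
    Int.natAbs_one, one_pow, one_mul]
  exact acoef_sub hn hL hL2 hp K

/-- the extreme coefficient is `±1` -/
theorem acoef_zero (hn : 2 ≤ n) (hL : n ∣ L) (hL2 : 4 * n ≤ L) (hp : p < 2) :
    acoef n p L 0 ≠ 0 := by
  have h1 := acoef_main hn hL hL2 hp 0 (Lam_pos (by omega) ∅)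
  intro h
  rw [h] at h1
  simp at h1

end Pool.Agent.H207.WT
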