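import Pool.Agent.H207.WT.Base

/-!
# The bracket of the closure of the weaving braid as a sum over flipped crossings
-/

set_option autoImplicit false

namespace Pool.Agent.H207.WT

open Pool.Agent.TH561 Pool.Agent.H891R2.Jones Pool.Agent.W639.RB Finset LaurentPolynomial

/-- the word of the weaving braid `(σ₁ σ₂⁻¹ σ₃ σ₄⁻¹ ⋯)^M` on `n + 1` strands -/
def weave (n M : ℕ) : Fin (n * M) → Letter (n + 1) := fun t =>
  (decide (((t : ℕ) % n) % 2 = 0), ⟨(t : ℕ) % n, by
    have h := t.2
    have hn : 0 < n := by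
      rcases Nat.eq_zero_or_pos n with h0 | h0
      · subst h0; simp at h
      · exact h0
    exact Nat.mod_lt _ hn⟩)

/-- the letter at the place `b` -/
def lt (n : ℕ) (b : ℕ) : Bool × ℕ := (decide ((b % n) % 2 = 0), b % n)

lemma toL_weave (n M : ℕ) : toL (weave n M) = (List.range' 0 (n * M)).map (lt n) := by
  unfold toL weave lt
  apply List.ext_getElem
  · simp
  · intro i h1 h2
    simp

/-- weight of a state -/
def wtS (n : ℕ) (X : ℕ → Bool) (a l : ℕ) : ℤ :=
  ∑ b ∈ Ico a (a + l), if X b then -sgn (lt n b) else sgn (lt n b)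

lemma terms_sum {R : Type*} [AddCommMonoid R] (n : ℕ) (base : ℕ → Bool) :
    ∀ (l a : ℕ) (F : ℤ → List ℕ → R),
      ((terms ((List.range' a l).map (lt n))).map (fun t => F t.1 t.2)).sum =
        ∑ S ∈ (Ico a (a + l)).powerset,
          F (wtS n (fun b => Bool.xor (base b) (decide (b ∈ S))) a l)
            (wd n (fun b => Bool.xor (base b) (decide (b ∈ S))) a l) := by
  intro l
  induction l with
  | zero =>
    intro a F
    simp [terms, wtS, wd]
  | succ l ih =>
    intro a F
    have hI : Ico a (a + (l + 1)) = insert a (Ico (a + 1) (a + 1 + l)) := by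
      ext b
      simp only [mem_Ico, mem_insert]
      omega
    have hna : a ∉ Ico (a + 1) (a + 1 + l) := by simp
    rw [List.range'_succ, List.map_cons, terms, List.map_append, List.sum_append, List.map_map,
      List.map_map, hI, sum_powerset_insert hna]
    have h1 := ih (a + 1) (fun w L => F (sgn (lt n a) + w) L)
    have h2 := ih (a + 1) (fun w L => F (-sgn (lt n a) + w) ((lt n a).2 :: L))
    have e1 : ((terms ((List.range' (a + 1) l).map (lt n))).map
        ((fun t : ℤ × List ℕ => F t.1 t.2) ∘ fun t : ℤ × List ℕ => (sgn (lt n a) + t.1, t.2))).sum =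
        ((terms ((List.range' (a + 1) l).map (lt n))).map
          (fun t => F (sgn (lt n a) + t.1) t.2)).sum := rfl
    have e2 : ((terms ((List.range' (a + 1) l).map (lt n))).map
        ((fun t : ℤ × List ℕ => F t.1 t.2) ∘ fun t : ℤ × List ℕ =>
          (-sgn (lt n a) + t.1, (lt n a).2 :: t.2))).sum =
        ((terms ((List.range' (a + 1) l).map (lt n))).map
          (fun t => F (-sgn (lt n a) + t.1) ((lt n a).2 :: t.2))).sum := rfl
    rw [e1, e2, h1, h2, ← sum_add_distrib, ← sum_add_distrib]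
    apply sum_congr rfl
    intro S hS
    have hSI : S ⊆ Ico (a + 1) (a + 1 + l) := mem_powerset.1 hS
    have haS : a ∉ S := fun h => hna (hSI h)
    -- split off the first place
    have hw : ∀ X : ℕ → Bool, wtS n X a (l + 1) =
        (if X a then -sgn (lt n a) else sgn (lt n a)) + wtS n X (a + 1) l := by
      intro X
      unfold wtS
      rw [hI, sum_insert hna]
    have hd : ∀ X : ℕ → Bool, wd n X a (l + 1) =
        (if X a then [a % n] else []) ++ wd n X (a + 1) l := by
      intro X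
      rw [add_comm l 1, wd_add, wd_one]
    have hX : ∀ b, a + 1 ≤ b → b < a + 1 + l →
        Bool.xor (base b) (decide (b ∈ insert a S)) = Bool.xor (base b) (decide (b ∈ S)) := by
      intro b hb _
      have : b ≠ a := by omega
      simp [this]
    have hw2 : wtS n (fun b => Bool.xor (base b) (decide (b ∈ insert a S))) (a + 1) l =
        wtS n (fun b => Bool.xor (base b) (decide (b ∈ S))) (a + 1) l := by
      unfold wtS
      apply sum_congr rfl
      intro b hb
      rw [mem_Ico] at hb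
      have h3 := hX b hb.1 hb.2
      simp only [h3]
    have hd2 : wd n (fun b => Bool.xor (base b) (decide (b ∈ insert a S))) (a + 1) l =
        wd n (fun b => Bool.xor (base b) (decide (b ∈ S))) (a + 1) l :=
      wd_congr (fun b hb1 hb2 => hX b hb1 hb2)
    rw [hw, hw, hd, hd, hw2, hd2]
    have hl2 : (lt n a).2 = a % n := rfl
    cases hb : base a
    · simp [haS, hb, hl2]
    · simp [haS, hb, hl2, add_comm]

/-- `ε = 1` for `p = 1` and `ε = -1` for `p = 0` -/
def eps (p : ℕ) : ℤ := 2 * p - 1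

lemma wtS_eq (n p L : ℕ) (hp : p < 2) (S : Finset ℕ) (hS : S ⊆ Ico 0 (0 + L)) :
    wtS n (fun b => Bool.xor (decide ((b % n) % 2 = p)) (decide (b ∈ S))) 0 L =
      eps p * ((L : ℤ) - 2 * S.card) := by
  unfold wtS
  have h1 : ∀ b ∈ Ico 0 (0 + L), (if (Bool.xor (decide ((b % n) % 2 = p)) (decide (b ∈ S))) then
      -sgn (lt n b) else sgn (lt n b)) = eps p - (if b ∈ S then 2 * eps p else 0) := by
    intro b _
    unfold sgn lt eps
    have h2 : (b % n) % 2 < 2 := Nat.mod_lt _ (by norm_num)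
    generalize (b % n) % 2 = q at *
    have hq : q = 0 ∨ q = 1 := by omega
    have hp' : p = 0 ∨ p = 1 := by omega
    by_cases hb : b ∈ S
    · rcases hq with rfl | rfl <;> rcases hp' with rfl | rfl <;> simp [hb]
    · rcases hq with rfl | rfl <;> rcases hp' with rfl | rfl <;> simp [hb]
  rw [sum_congr rfl h1, sum_sub_distrib, sum_const, Nat.card_Ico, sum_ite_mem,
    inter_eq_right.2 hS, sum_const]
  simp only [nsmul_eq_mul, Nat.zero_add, Nat.sub_zero]
  ring

lemma weave_mem (n M : ℕ) (hn : 0 < n) : ∀ x ∈ toL (weave n M), x.2 + 1 < n + 1 := by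
  intro x hx
  rw [toL_weave, List.mem_map] at hx
  obtain ⟨b, _, rfl⟩ := hx
  have := Nat.mod_lt b hn
  unfold lt
  simp only
  omega

lemma dl_ne : (dl : ℤ[T;T⁻¹]) ≠ 0 := by
  intro h
  have h1 := ev_dl 3 le_rfl
  rw [h, map_zero] at h1
  norm_num at h1

/-- the state sum -/
theorem bracket_sum (n p M : ℕ) (hn : 0 < n) (hp : p < 2) :
    (diagram (braidClosure (n + 1)) (weave n M)).bracket =
      ∑ S ∈ (range (n * M)).powerset,
        T (eps p * (((n * M : ℕ) : ℤ) - 2 * S.card)) * dl ^ (Lam n p (n * M) S - 1) := by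
  have hok := weave_mem n M hn
  have h := bracket_formula (m := n + 1) (by omega) (toL (weave n M)) hok 1
    (toL (weave n M)) hok (fun A N => by rw [pow_one])
  apply mul_left_cancel₀ dl_ne
  unfold diagram
  rw [h, mul_sum]
  have h1 : ∑ f : Fin 1 → St (toL (weave n M)), T (∑ j, wt (f j)) * dl ^ lam (n + 1) (seqw f) =
      ∑ i : St (toL (weave n M)), T (wt i) * dl ^ lam (n + 1) (gw i) := by
    rw [← (Equiv.funUnique (Fin 1) (St (toL (weave n M)))).symm.sum_comp]
    apply sum_congr rfl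
    intro i _
    have e1 : seqw ((Equiv.funUnique (Fin 1) (St (toL (weave n M)))).symm i) = gw i := by
      unfold seqw
      simp
    rw [e1]
    simp
  rw [h1]
  have h2 : ∑ i : St (toL (weave n M)), (T (wt i) : ℤ[T;T⁻¹]) * dl ^ lam (n + 1) (gw i) =
      ((terms (toL (weave n M))).map
        (fun t => (T t.1 : ℤ[T;T⁻¹]) * dl ^ lam (n + 1) t.2)).sum := by
    unfold wt gw
    exact Fin.sum_univ_fun_getElem (terms (toL (weave n M)))
      (fun t => (T t.1 : ℤ[T;T⁻¹]) * dl ^ lam (n + 1) t.2)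
  rw [h2, toL_weave, terms_sum n (fun b => decide ((b % n) % 2 = p)) (n * M) 0
    (fun w L => (T w : ℤ[T;T⁻¹]) * dl ^ lam (n + 1) L)]
  have hI : Ico 0 (0 + n * M) = range (n * M) := by
    rw [Nat.zero_add, range_eq_Ico]
  rw [← hI]
  apply sum_congr rfl
  intro S hS
  have hS' := mem_powerset.1 hS
  rw [wtS_eq n p (n * M) hp S hS']
  have e3 : wd n (fun b => Bool.xor (decide ((b % n) % 2 = p)) (decide (b ∈ S))) 0 (n * M) =
      wd n (st n p (n * M) S) 0 (n * M) := by
    apply wd_congr
    intro b _ hb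
    unfold st
    rw [Nat.mod_eq_of_lt (show b < n * M by omega)]
  rw [e3]
  have hpos : 0 < Lam n p (n * M) S := lam_pos (by omega) (wd_ok hn _ _ _)
  obtain ⟨k, hk⟩ : ∃ k, Lam n p (n * M) S = k + 1 := ⟨_, (Nat.sub_add_cancel hpos).symm⟩
  have e4 : lam (n + 1) (wd n (st n p (n * M) S) 0 (n * M)) = k + 1 := hk
  rw [hk, e4, Nat.add_sub_cancel, pow_succ]
  ring

/-! ### coefficients -/

lemma coeff_T_mul (w : ℤ) (f : ℤ[T;T⁻¹]) (e : ℤ) : (T w * f).coeff e = f.coeff (e - w) := by
  have h : (T w * f).coeff e = 1 * f.coeff (-w + e) :=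
    AddMonoidAlgebra.coeff_single_mul_apply f 1 w e
  rw [one_mul] at h
  rw [h]
  congr 1
  ring

lemma dl_pow_coeff : ∀ (k : ℕ) (e : ℤ), (dl ^ k).coeff e =
    (-1) ^ k * ∑ i ∈ range (k + 1), if e = 2 * k - 4 * i then ((k.choose i : ℕ) : ℤ) else 0 := by
  intro k
  have h1 : (dl : ℤ[T;T⁻¹]) ^ k = ∑ i ∈ range (k + 1),
      ((-1) ^ k * ((k.choose i : ℕ) : ℤ)) • (T (2 * k - 4 * i) : ℤ[T;T⁻¹]) := by
    have h2 : (dl : ℤ[T;T⁻¹]) = (-1) * (T (-2) + T 2) := by
      unfold dl
      ring
    rw [h2, mul_pow, add_pow, mul_sum]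
    apply sum_congr rfl
    intro i hi
    rw [mem_range] at hi
    rw [T_pow, T_pow, ← T_add]
    have e1 : ((i : ℤ) * -2 + ((k - i : ℕ) : ℤ) * 2) = 2 * k - 4 * i := by
      rw [Nat.cast_sub (by omega)]
      ring
    rw [e1, zsmul_eq_mul]
    push_cast
    ring
  intro e
  rw [h1, AddMonoidAlgebra.coeff_sum, Finset.sum_apply', mul_sum]
  apply sum_congr rfl
  intro i _
  rw [AddMonoidAlgebra.coeff_smul, Finsupp.smul_apply, T_apply]
  by_cases h : e = 2 * k - 4 * i
  · rw [if_pos h, if_pos h.symm]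
    simp
  · rw [if_neg h, if_neg (fun h' => h h'.symm)]
    simp

end Pool.Agent.H207.WT
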