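import Pool.Agent.H207.WT.Flip

/-!
# The words of the states of the closure of the weaving braid
-/

set_option autoImplicit false

namespace Pool.Agent.H207.WT

open Pool.Agent.TH561 Pool.Agent.H891R2.Jones

/-- the word of the letters at the places `a, …, a + l - 1` which are present in `X` -/
def wd (n : ℕ) (X : ℕ → Bool) (a l : ℕ) : List ℕ := ((List.range' a l).filter X).map (· % n)

variable {n : ℕ}

lemma wd_zero (X : ℕ → Bool) (a : ℕ) : wd n X a 0 = [] := by simp [wd]

lemma wd_one (X : ℕ → Bool) (a : ℕ) : wd n X a 1 = if X a then [a % n] else [] := by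
  unfold wd
  cases h : X a <;> simp [h]

lemma wd_add (X : ℕ → Bool) (a l l' : ℕ) : wd n X a (l + l') = wd n X a l ++ wd n X (a + l) l' := by
  unfold wd
  rw [← List.range'_append_1, List.filter_append, List.map_append]

lemma wd_congr {X Y : ℕ → Bool} {a l : ℕ} (h : ∀ b, a ≤ b → b < a + l → X b = Y b) :
    wd n X a l = wd n Y a l := by
  unfold wd
  congr 1
  apply List.filter_congr
  intro b hb
  rw [List.mem_range'_1] at hb
  exact h b hb.1 hb.2

lemma wd_shift {X : ℕ → Bool} {L : ℕ} (hL : n ∣ L) (hX : ∀ b, X (b + L) = X b) (a : ℕ) :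
    ∀ l, wd n X (a + L) l = wd n X a l := by
  intro l
  induction l with
  | zero => rw [wd_zero, wd_zero]
  | succ l ih =>
    rw [wd_add, wd_add, ih, wd_one, wd_one]
    have e : a + L + l = (a + l) + L := by ring
    rw [e, hX]
    have e2 : (a + l + L) % n = (a + l) % n := by
      obtain ⟨k, rfl⟩ := hL
      rw [Nat.add_mul_mod_self_left]
    rw [e2]

lemma wd_ok (hn : 0 < n) (X : ℕ → Bool) (a l : ℕ) : Ok (n + 1) (wd n X a l) := by
  intro i hi
  unfold wd at hi
  rw [List.mem_map] at hi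
  obtain ⟨b, _, rfl⟩ := hi
  have := Nat.mod_lt b hn
  omega

lemma wd_mem {X : ℕ → Bool} {a l i : ℕ} (h : i ∈ wd n X a l) :
    ∃ b, a ≤ b ∧ b < a + l ∧ X b = true ∧ b % n = i := by
  unfold wd at h
  rw [List.mem_map] at h
  obtain ⟨b, hb, rfl⟩ := h
  rw [List.mem_filter, List.mem_range'_1] at hb
  exact ⟨b, hb.1.1, hb.1.2, hb.2, rfl⟩

lemma wd_rot (hn : 0 < n) {X : ℕ → Bool} {L : ℕ} (hL : n ∣ L) (hX : ∀ b, X (b + L) = X b) (a : ℕ) :
    lam (n + 1) (wd n X a L) = lam (n + 1) (wd n X 0 L) := by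
  induction a with
  | zero => rfl
  | succ a ih =>
    rw [← ih]
    rcases Nat.eq_zero_or_pos L with h0 | h0
    · subst h0
      rw [wd_zero, wd_zero]
    · obtain ⟨K, rfl⟩ : ∃ K, L = K + 1 := ⟨L - 1, by omega⟩
      have e1 : wd n X (a + 1) (K + 1) = wd n X (a + 1) K ++ wd n X a 1 := by
        rw [wd_add]
        have : a + 1 + K = a + (K + 1) := by ring
        rw [this, wd_shift hL hX]
      have e2 : wd n X a (K + 1) = wd n X a 1 ++ wd n X (a + 1) K := by
        rw [add_comm K 1, wd_add]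
      rw [e1, e2, lam_cyc (wd_ok hn _ _ _) (wd_ok hn _ _ _)]

/-- the letters of the state in which the crossings in `S` are flipped -/
def st (n p L : ℕ) (S : Finset ℕ) (b : ℕ) : Bool :=
  Bool.xor (decide ((b % n) % 2 = p)) (decide (b % L ∈ S))

/-- number of closed curves -/
noncomputable def Lam (n p L : ℕ) (S : Finset ℕ) : ℕ := lam (n + 1) (wd n (st n p L S) 0 L)

variable {p L : ℕ} {S : Finset ℕ}

lemma st_per (hL : n ∣ L) (b : ℕ) : st n p L S (b + L) = st n p L S b := by
  unfold st
  obtain ⟨k, hk⟩ := hL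
  have e2 : (b + L) % n = b % n := by
    rw [hk, Nat.add_mul_mod_self_left]
  rw [e2, Nat.add_mod_right]

lemma Lam_rot (hn : 0 < n) (hL : n ∣ L) (a : ℕ) :
    Lam n p L S = lam (n + 1) (wd n (st n p L S) a L) :=
  (wd_rot hn hL (st_per hL) a).symm

lemma mod_window {a b c L : ℕ} (h1 : a ≤ b) (h2 : b < a + L) (h3 : a ≤ c) (h4 : c < a + L)
    (h : b % L = c % L) : b = c := by
  obtain ⟨u, rfl⟩ := Nat.exists_eq_add_of_le h1
  obtain ⟨v, rfl⟩ := Nat.exists_eq_add_of_le h3
  have h5 : u ≡ v [MOD L] := Nat.ModEq.add_left_cancel' a h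
  have := Nat.ModEq.eq_of_lt_of_lt h5 (by omega) (by omega)
  rw [this]

lemma st_insert_ne {x b : ℕ} (h : b % L ≠ x) : st n p L (insert x S) b = st n p L S b := by
  unfold st
  simp [h]

lemma st_insert_eq {x b : ℕ} (h : b % L = x) (hx : x ∉ S) :
    st n p L (insert x S) b = !(st n p L S b) := by
  unfold st
  subst h
  simp [hx]

lemma st_not {b : ℕ} (h : b % L ∉ S) : st n p L S b = decide ((b % n) % 2 = p) := by
  unfold st
  simp [h]

lemma Lam_flip (hn : 0 < n) {x : ℕ} (hx : x < L) (hxS : x ∉ S) :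
    Lam n p L (insert x S) = Lam n p L S + 1 ∨ Lam n p L S = Lam n p L (insert x S) + 1 := by
  have hne : ∀ b < L, b ≠ x → st n p L (insert x S) b = st n p L S b := by
    intro b hb hbx
    apply st_insert_ne
    rwa [Nat.mod_eq_of_lt hb]
  have heq : st n p L (insert x S) x = !(st n p L S x) :=
    st_insert_eq (Nat.mod_eq_of_lt hx) hxS
  obtain ⟨K, rfl⟩ : ∃ K, L = x + (1 + K) := ⟨L - x - 1, by omega⟩
  have hs : ∀ X : ℕ → Bool, wd n X 0 (x + (1 + K)) =
      wd n X 0 x ++ ((if X x then [x % n] else []) ++ wd n X (x + 1) K) := by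
    intro X
    rw [wd_add, wd_add, Nat.zero_add, wd_one]
  unfold Lam
  rw [hs, hs, heq]
  have c1 : wd n (st n p (x + (1 + K)) (insert x S)) 0 x = wd n (st n p (x + (1 + K)) S) 0 x :=
    wd_congr (fun b _ hb => hne b (by omega) (by omega))
  have c2 : wd n (st n p (x + (1 + K)) (insert x S)) (x + 1) K =
      wd n (st n p (x + (1 + K)) S) (x + 1) K :=
    wd_congr (fun b hb1 hb2 => hne b (by omega) (by omega))
  rw [c1, c2]
  have hi : x % n + 1 < n + 1 := by have := Nat.mod_lt x hn; omega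
  have hf := flip (m := n + 1) (wd_ok hn (st n p (x + (1 + K)) S) 0 x)
    (wd_ok hn (st n p (x + (1 + K)) S) (x + 1) K) hi
  cases hX : st n p (x + (1 + K)) S x
  · simp only [Bool.not_false, if_true, Bool.false_eq_true, if_false, List.singleton_append,
      List.nil_append]
    exact hf
  · simp only [Bool.not_true, if_true, Bool.false_eq_true, if_false, List.singleton_append,
      List.nil_append]
    omega

/-! ### merging -/

variable {m : ℕ}

lemma core_a {c : ℕ} {C R : List ℕ} (hc : c + 1 < m) (hC : Ok m C) (hR : Ok m R)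
    (hf : ∀ j ∈ C, c + 2 ≤ j ∨ j + 2 ≤ c) :
    lam m ([c] ++ C ++ [c] ++ R) = lam m (C ++ [c] ++ R) + 1 := by
  have hco : Ok m [c] := ok_single hc
  apply pow_inj
  rw [pow_succ, ← tr_lam (((hco.append hC).append hco).append hR),
    ← tr_lam ((hC.append hco).append hR)]
  have h := w_comm hc C hC hf
  have e1 : [c] ++ C ++ [c] ++ R = [] ++ (c :: C) ++ ([c] ++ R) := by simp
  rw [e1, tr_repl1 h]
  have e2 : [] ++ (C ++ [c]) ++ ([c] ++ R) = C ++ [c, c] ++ R := by simp
  rw [e2, tr_repl (w_sq hc)]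
  ring

lemma core_b {c : ℕ} {C R : List ℕ} (hc : c + 1 < m) (hC : Ok m C) (hR : Ok m R)
    (hf : ∀ j ∈ C, c + 2 ≤ j ∨ j + 2 ≤ c) :
    lam m ([c] ++ C ++ [c] ++ R) = lam m ([c] ++ C ++ R) + 1 := by
  have hco : Ok m [c] := ok_single hc
  rw [core_a hc hC hR hf]
  congr 1
  apply pow_inj
  rw [← tr_lam ((hC.append hco).append hR), ← tr_lam ((hco.append hC).append hR)]
  have h := w_comm hc C hC hf
  have e1 := tr_repl1 h [] R
  simpa using e1.symm

/-- a neighbouring letter right after the first `c` -/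
lemma core_c {c d : ℕ} {C R : List ℕ} (hc : c + 1 < m) (hd : d + 1 < m) (hcd : d = c + 1 ∨ c = d + 1)
    (hC : Ok m C) (hR : Ok m R) (hf : ∀ j ∈ C, c + 2 ≤ j ∨ j + 2 ≤ c) :
    lam m ([c] ++ C ++ [c] ++ R) = lam m ([c] ++ (d :: C) ++ [c] ++ R) + 1 := by
  have hco : Ok m [c] := ok_single hc
  have hdo : Ok m [d] := ok_single hd
  rw [core_b hc hC hR hf]
  congr 1
  apply pow_inj
  have hok : Ok m ([c] ++ (d :: C) ++ [c] ++ R) :=
    ((hco.append (hdo.append hC)).append hco).append hR
  rw [← tr_lam ((hco.append hC).append hR), ← tr_lam hok]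
  have h := w_comm hc C hC hf
  have e1 : [c] ++ (d :: C) ++ [c] ++ R = [c, d] ++ (C ++ [c]) ++ R := by simp
  rw [e1, ← tr_repl1 h]
  have e2 : [c, d] ++ (c :: C) ++ R = [] ++ [c, d, c] ++ (C ++ R) := by simp
  have h3 : WP (KK m 2) [c, d, c] = WP (KK m 2) [c] := by
    rcases hcd with rfl | rfl
    · exact w_up (by omega)
    · exact w_down (by omega)
  rw [e2, tr_repl1 h3]
  simp

/-- a neighbouring letter right before the second `c` -/
lemma core_d {c d : ℕ} {C R : List ℕ} (hc : c + 1 < m) (hd : d + 1 < m) (hcd : d = c + 1 ∨ c = d + 1)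
    (hC : Ok m C) (hR : Ok m R) (hf : ∀ j ∈ C, c + 2 ≤ j ∨ j + 2 ≤ c) :
    lam m ([c] ++ C ++ [c] ++ R) = lam m ([c] ++ (C ++ [d]) ++ [c] ++ R) + 1 := by
  have hco : Ok m [c] := ok_single hc
  have hdo : Ok m [d] := ok_single hd
  rw [core_a hc hC hR hf]
  congr 1
  apply pow_inj
  have hok : Ok m ([c] ++ (C ++ [d]) ++ [c] ++ R) :=
    ((hco.append (hC.append hdo)).append hco).append hR
  rw [← tr_lam ((hC.append hco).append hR), ← tr_lam hok]
  have h := w_comm hc C hC hf
  have e1 : [c] ++ (C ++ [d]) ++ [c] ++ R = [] ++ (c :: C) ++ ([d, c] ++ R) := by simp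
  rw [e1, tr_repl1 h]
  have e2 : [] ++ (C ++ [c]) ++ ([d, c] ++ R) = C ++ [c, d, c] ++ R := by simp
  have h3 : WP (KK m 2) [c, d, c] = WP (KK m 2) [c] := by
    rcases hcd with rfl | rfl
    · exact w_up (by omega)
    · exact w_down (by omega)
  rw [e2, tr_repl1 h3]

/-- the crossings at the places `a + i` are those which the curve at `a` touches -/
def Touch (n a i : ℕ) : Prop :=
  i = 0 ∨ i = n ∨ (i = 1 ∧ a % n + 1 < n) ∨ (i = n - 1 ∧ 0 < a % n)

theorem merge (hn : 2 ≤ n) (hL : n ∣ L) (hL2 : n + 1 ≤ L) {a : ℕ}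
    (ha : (a % n) % 2 = p) (hS : ∀ j, Touch n a j → (a + j) % L ∉ S) {i : ℕ} (hi : Touch n a i) :
    Lam n p L S = Lam n p L (insert ((a + i) % L) S) + 1 := by
  have hn0 : 0 < n := by omega
  rw [Lam_rot hn0 hL a, Lam_rot hn0 hL a]
  obtain ⟨K, rfl⟩ : ∃ K, L = 1 + (n - 1) + 1 + K := ⟨L - n - 1, by omega⟩
  set L := 1 + (n - 1) + 1 + K with hLdef
  have hs : ∀ X : ℕ → Bool, wd n X a L =
      (if X a then [a % n] else []) ++ wd n X (a + 1) (n - 1) ++
        (if X (a + n) then [a % n] else []) ++ wd n X (a + n + 1) K := by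
    intro X
    have h1 : a + (1 + (n - 1)) = a + n := by omega
    have h2 : a + (1 + (n - 1) + 1) = a + n + 1 := by omega
    rw [hLdef, wd_add, wd_add, wd_add, wd_one, wd_one, h1, h2, Nat.add_mod_right]
  have h0 : a % L ∉ S := hS 0 (Or.inl rfl)
  have hnS : (a + n) % L ∉ S := hS n (Or.inr (Or.inl rfl))
  have hX0 : st n p L S a = true := by
    rw [st_not h0]; simpa using ha
  have hXn : st n p L S (a + n) = true := by
    rw [st_not hnS, Nat.add_mod_right]; simpa using ha
  set c := a % n with hc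
  have hcn : c < n := Nat.mod_lt _ hn0
  -- the columns in between
  have hcol : ∀ j, 1 ≤ j → j < n → (a + j) % n ≠ c ∧ ((a + j) % n = c + 1 → j = 1) ∧
      ((a + j) % n + 1 = c → j = n - 1) := by
    intro j hj1 hj2
    have e : (a + j) % n = (c + j) % n := by rw [hc, Nat.mod_add_mod]
    rw [e]
    rcases Nat.lt_or_ge (c + j) n with h | h
    · rw [Nat.mod_eq_of_lt h]
      refine ⟨by omega, by omega, by omega⟩
    · have e2 : (c + j) % n = c + j - n := by
        rw [Nat.mod_eq_sub_mod h, Nat.mod_eq_of_lt (by omega)]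
      rw [e2]
      refine ⟨by omega, by omega, by omega⟩
  have hfar : ∀ k l, 1 ≤ k → k + l ≤ n →
      (∀ j, k ≤ j → j < k + l → st n p L S (a + j) = true → ¬ (a + j) % n = c + 1 ∧
        ¬ (a + j) % n + 1 = c) →
      ∀ j ∈ wd n (st n p L S) (a + k) l, c + 2 ≤ j ∨ j + 2 ≤ c := by
    intro k l hk hkl hh j hj
    obtain ⟨b, hb1, hb2, hb3, rfl⟩ := wd_mem hj
    obtain ⟨t, rfl⟩ := Nat.exists_eq_add_of_le (show a ≤ b by omega)
    have h1 := hcol t (by omega) (by omega)
    have h2 := hh t (by omega) (by omega) hb3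
    omega
  have hside1 : c + 1 < n → st n p L S (a + 1) = false ∧ (a + 1) % n = c + 1 := by
    intro h
    have e : (a + 1) % n = c + 1 := by
      rw [← Nat.mod_add_mod, ← hc, Nat.mod_eq_of_lt h]
    refine ⟨?_, e⟩
    rw [st_not (hS 1 (Or.inr (Or.inr (Or.inl ⟨rfl, h⟩)))), e]
    simp only [decide_eq_false_iff_not]
    omega
  have hside2 : 0 < c → st n p L S (a + (n - 1)) = false ∧ (a + (n - 1)) % n = c - 1 := by
    intro h
    have e : (a + (n - 1)) % n = c - 1 := by
      rw [← Nat.mod_add_mod, ← hc, Nat.mod_eq_sub_mod (by omega), Nat.mod_eq_of_lt (by omega)]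
      omega
    refine ⟨?_, e⟩
    rw [st_not (hS (n - 1) (Or.inr (Or.inr (Or.inr ⟨rfl, h⟩)))), e]
    simp only [decide_eq_false_iff_not]
    omega
  have hgood : ∀ j, 1 ≤ j → j < n → st n p L S (a + j) = true → ¬ (a + j) % n = c + 1 ∧
      ¬ (a + j) % n + 1 = c := by
    intro j hj1 hj2 hst
    have h1 := hcol j hj1 hj2
    constructor
    · intro h
      have hj := h1.2.1 h
      subst hj
      have hlt : c + 1 < n := by
        have := Nat.mod_lt (a + 1) hn0
        omega
      rw [(hside1 hlt).1] at hst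
      exact absurd hst (by simp)
    · intro h
      have hj := h1.2.2 h
      subst hj
      rw [(hside2 (by omega)).1] at hst
      exact absurd hst (by simp)
  have hCf := hfar 1 (n - 1) le_rfl (by omega) (fun j h1 h2 h3 => hgood j h1 (by omega) h3)
  have hCok := wd_ok hn0 (st n p L S) (a + 1) (n - 1)
  have hRok := wd_ok hn0 (st n p L S) (a + n + 1) K
  have hcok : c + 1 < n + 1 := by omega
  -- the new state
  have hiL : i < L := by
    rcases hi with h | h | h | h
    · omega
    · omega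
    · omega
    · omega
  have hne : ∀ b, a ≤ b → b < a + L → b ≠ a + i →
      st n p L (insert ((a + i) % L) S) b = st n p L S b := by
    intro b hb1 hb2 hb3
    apply st_insert_ne
    intro h
    exact hb3 (mod_window hb1 hb2 (by omega) (by omega) h)
  have heq : st n p L (insert ((a + i) % L) S) (a + i) = !(st n p L S (a + i)) :=
    st_insert_eq rfl (hS i hi)
  rw [hs, hs, hX0, hXn, if_pos rfl]
  set Y := st n p L (insert ((a + i) % L) S) with hY
  have hR' : wd n Y (a + n + 1) K = wd n (st n p L S) (a + n + 1) K := by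
    apply wd_congr
    intro b hb1 hb2
    refine hne b (by omega) (by omega) ?_
    rcases hi with h | h | h | h <;> omega
  rw [hR']
  rcases hi with h | h | ⟨h, h'⟩ | ⟨h, h'⟩
  · -- `i = 0`
    subst h
    have e1 : Y a = false := by
      have := heq
      rw [add_zero, hX0] at this
      simpa using this
    have e2 : Y (a + n) = true := by rw [hne _ (by omega) (by omega) (by omega), hXn]
    have e3 : wd n Y (a + 1) (n - 1) = wd n (st n p L S) (a + 1) (n - 1) :=
      wd_congr (fun b hb1 hb2 => hne b (by omega) (by omega) (by omega))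
    rw [e1, e2, e3, if_pos rfl, if_neg (by simp), List.nil_append]
    exact core_a hcok hCok hRok hCf
  · subst h
    have e1 : Y a = true := by rw [hne _ (by omega) (by omega) (by omega), hX0]
    have e2 : Y (a + i) = false := by rw [heq, hXn]; rfl
    have e3 : wd i Y (a + 1) (i - 1) = wd i (st i p L S) (a + 1) (i - 1) :=
      wd_congr (fun b hb1 hb2 => hne b (by omega) (by omega) (by omega))
    rw [e1, e2, e3, if_pos rfl, if_neg (by simp), List.append_nil]
    exact core_b hcok hCok hRok hCf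
  · -- `i = 1`
    subst h
    obtain ⟨f1, f2⟩ := hside1 h'
    have e1 : Y a = true := by rw [hne _ (by omega) (by omega) (by omega), hX0]
    have e2 : Y (a + n) = true := by rw [hne _ (by omega) (by omega) (by omega), hXn]
    have e0 : Y (a + 1) = true := by rw [heq, f1]; rfl
    have hn1 : n - 1 = 1 + (n - 2) := by omega
    have e4 : wd n Y (a + 1 + 1) (n - 2) = wd n (st n p L S) (a + 1 + 1) (n - 2) :=
      wd_congr (fun b hb1 hb2 => hne b (by omega) (by omega) (by omega))
    have e3 : wd n Y (a + 1) (n - 1) = (c + 1) :: wd n (st n p L S) (a + 1) (n - 1) := by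
      rw [hn1, wd_add, wd_add, wd_one, wd_one, e0, f1, e4, f2]
      simp
    rw [e1, e2, e3, if_pos rfl]
    exact core_c hcok (by omega) (Or.inl rfl) hCok hRok hCf
  · -- `i = n - 1`
    subst h
    obtain ⟨f1, f2⟩ := hside2 h'
    have e1 : Y a = true := by rw [hne _ (by omega) (by omega) (by omega), hX0]
    have e2 : Y (a + n) = true := by rw [hne _ (by omega) (by omega) (by omega), hXn]
    have e0 : Y (a + (n - 1)) = true := by rw [heq, f1]; rfl
    have hn1 : n - 1 = (n - 2) + 1 := by omega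
    have e4 : wd n Y (a + 1) (n - 2) = wd n (st n p L S) (a + 1) (n - 2) :=
      wd_congr (fun b hb1 hb2 => hne b (by omega) (by omega) (by omega))
    have e5 : a + 1 + (n - 2) = a + (n - 1) := by omega
    have e3 : wd n Y (a + 1) (n - 1) = wd n (st n p L S) (a + 1) (n - 1) ++ [c - 1] := by
      have g1 : wd n Y (a + 1) (n - 2 + 1) = wd n (st n p L S) (a + 1) (n - 2 + 1) ++ [c - 1] := by
        rw [wd_add, wd_add, wd_one, wd_one, e5, e0, f1, e4, f2]
        simp
      rw [← hn1] at g1
      exact g1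
    rw [e1, e2, e3, if_pos rfl]
    exact core_d hcok (by omega) (Or.inr (by omega)) hCok hRok hCf

end Pool.Agent.H207.WT
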